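import Pool.Agent.TH431.RK.Stmts

/-!
# RK-CHAIN: a computation is a cheap chain of phases
-/

set_option autoImplicit false

namespace Pool.Agent.TH431.RK

open Pool.Agent.H867R4
open Pool.Agent.TH431.RB (Graded Rel blk ex hat Ph S_GB S_HAT1)
open Pool.Agent.H541R2 (gsign theLang mu)

namespace CHAIN

theorem mono {k : ℕ} {Q : Type} {g N : ℕ} {W : (Fin g → Fin N → Bool) → List (Fin 4)}
    {M : NMach (Fin 4) k Q} {A : Finset (NCfg k Q)} {Nb : NCfg k Q → ℕ → Finset (NCfg k Q)}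
    {w D : ℕ} {b : Fin g → Fin N → Bool} {Λ : ℕ} {c : NCfg k Q}
    (h : AccB W M A Nb w D b Λ c) (e : ℕ) : AccB W M A Nb w D b (Λ + e) c := by
  induction h with
  | last Λ c d r hA hF hP => exact AccB.last _ c d r hA hF hP
  | near Λ δ c d r h1 h2 h3 h4 _ ih =>
    have := AccB.near (Λ + e) δ c d r h1 h2 h3 h4 ih
    rwa [show Λ + e + δ = Λ + δ + e by omega] at this
  | far Λ c d r hA hP _ ih =>
    have := AccB.far (Λ + e) c d r hA hP ih
    rwa [show Λ + e + D = Λ + D + e by omega] at this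

theorem mono_le {k : ℕ} {Q : Type} {g N : ℕ} {W : (Fin g → Fin N → Bool) → List (Fin 4)}
    {M : NMach (Fin 4) k Q} {A : Finset (NCfg k Q)} {Nb : NCfg k Q → ℕ → Finset (NCfg k Q)}
    {w D : ℕ} {b : Fin g → Fin N → Bool} {Λ Λ' : ℕ} {c : NCfg k Q}
    (h : AccB W M A Nb w D b Λ c) (e : Λ ≤ Λ') : AccB W M A Nb w D b Λ' c := by
  have := mono h (Λ' - Λ)
  rwa [Nat.add_sub_cancel' e] at this

theorem smv_add {k : ℕ} {Q : Type} (ρ : ℕ → NCfg k Q) (h : Fin k) {a b c : ℕ} (hab : a ≤ b)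
    (hbc : b ≤ c) : smv ρ h a b + smv ρ h b c = smv ρ h a c := by
  classical
  unfold smv
  rw [Finset.card_filter, Finset.card_filter, Finset.card_filter]
  exact Finset.sum_Ico_consecutive _ hab hbc

theorem smv_one {k : ℕ} {Q : Type} (ρ : ℕ → NCfg k Q) (h : Fin k) (a : ℕ) :
    smv ρ h a (a + 1) ≤ 1 := by
  classical
  unfold smv
  refine (Finset.card_filter_le _ _).trans ?_
  simp

/-- discrete intermediate value theorem -/
theorem ivt (G : ℕ → ℕ) (hm : Monotone G) (hs : ∀ s, G (s + 1) ≤ G s + 1) {t e v : ℕ}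
    (_hte : t ≤ e) (h1 : G t ≤ v) (h2 : v < G e) :
    ∃ a, t ≤ a ∧ a < e ∧ G a = v ∧ ∀ s, a < s → v + 1 ≤ G s := by
  classical
  have hex : ∃ s, v < G s := ⟨e, h2⟩
  have hf := Nat.find_spec hex
  have hfm : ∀ s, s < Nat.find hex → G s ≤ v := fun s hs' => by
    have := Nat.find_min hex hs'
    omega
  have hfe : Nat.find hex ≤ e := Nat.find_min' hex h2
  have hft : t < Nat.find hex := by
    by_contra hcon
    have := hm (not_lt.1 hcon)
    omega
  generalize Nat.find hex = f at hf hfm hfe hft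
  obtain ⟨a, rfl⟩ : ∃ a, f = a + 1 := ⟨f - 1, by omega⟩
  refine ⟨a, by omega, by omega, ?_, fun s hs' => ?_⟩
  · have h3 := hfm a (by omega)
    have h4 := hs a
    omega
  · have := hm (show a + 1 ≤ s by omega)
    omega

theorem core {k : ℕ} {Q : Type} {g N : ℕ}
    (W : (Fin g → Fin N → Bool) → List (Fin 4)) (M : NMach (Fin 4) k Q)
    (A : Finset (NCfg k Q)) (Nb : NCfg k Q → ℕ → Finset (NCfg k Q)) (b : Fin g → Fin N → Bool)
    (ℓ w T : ℕ) (ρ : ℕ → NCfg k Q) (h : Fin k) (hw : 1 ≤ w) (hwl : w ≤ ℓ)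
    (H1 : ∀ t t', t ≤ t' → t' ≤ T → smv ρ h t t' ≤ w → ∃ r, Ph W M b r (ρ t) (ρ t'))
    (H2 : ∀ t t', t ≤ t' → t' ≤ T → (∀ s, t < s → s < t' → ¬ (ℓ + 1) ∣ (ρ s).p h) →
      smv ρ h t t' ≤ ℓ → ∃ r, Ph W M b r (ρ t) (ρ t'))
    (H3 : ∀ t t' δ, t ≤ t' → t' ≤ T → (ℓ + 1) ∣ (ρ t').p h → smv ρ h t t' ≤ δ →
      ρ t' ∈ Nb (ρ t) δ)
    (HA : ∀ t, t ≤ T → ρ t ∈ A) (HF : (ρ T).q ∈ M.F) :
    ∀ n t, t ≤ T → T - t ≤ n → AccB W M A Nb w (ℓ + 1) b (3 * smv ρ h t T + w) (ρ t) := by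
  classical
  intro n
  induction n with
  | zero =>
    intro t ht hn
    have htT : t = T := by omega
    subst htT
    have h0 : smv ρ h t t = 0 := by
      have := smv_add ρ h (le_refl t) (le_refl t)
      omega
    obtain ⟨r, hr⟩ := H1 t t le_rfl le_rfl (by omega)
    exact AccB.last _ _ _ r (HA t le_rfl) HF hr
  | succ n ih =>
    intro t ht hn
    -- the cumulative function
    have hm : Monotone fun s => smv ρ h 0 s := by
      intro a c hac
      have := smv_add ρ h (Nat.zero_le a) hac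
      show smv ρ h 0 a ≤ smv ρ h 0 c
      omega
    have hs : ∀ s, smv ρ h 0 (s + 1) ≤ smv ρ h 0 s + 1 := fun s => by
      have h1 := smv_add ρ h (Nat.zero_le s) (Nat.le_succ s)
      have h2 := smv_one ρ h s
      simp only [Nat.succ_eq_add_one] at h1
      omega
    have hadd : ∀ a c, a ≤ c → smv ρ h 0 a + smv ρ h a c = smv ρ h 0 c := fun a c hac =>
      smv_add ρ h (Nat.zero_le a) hac
    by_cases hsmall : smv ρ h t T ≤ w
    · obtain ⟨r, hr⟩ := H1 t T ht le_rfl hsmall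
      exact AccB.last _ _ _ r (HA T le_rfl) HF hr
    push Not at hsmall
    have htT := hadd t T ht
    obtain ⟨a, ha1, ha2, ha3, ha4⟩ := ivt (fun s => smv ρ h 0 s) hm hs ht
      (v := smv ρ h 0 t + w) (by simp) (by show smv ρ h 0 t + w < smv ρ h 0 T; omega)
    -- the time `l`
    obtain ⟨l, c0, hl1, hl2, hc0, hl3, hl4⟩ : ∃ l c0, t ≤ l ∧ l ≤ a ∧ c0 ≤ w ∧
        (∀ s, l < s → s ≤ a → ¬ (ℓ + 1) ∣ (ρ s).p h) ∧
        (∀ Λ, AccB W M A Nb w (ℓ + 1) b Λ (ρ l) →
          AccB W M A Nb w (ℓ + 1) b (Λ + c0) (ρ t)) := by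
      by_cases hex : ∃ s, t < s ∧ s ≤ a ∧ (ℓ + 1) ∣ (ρ s).p h
      · let S := (Finset.Ioc t a).filter fun s => (ℓ + 1) ∣ (ρ s).p h
        have hS : S.Nonempty := by
          obtain ⟨s, h1, h2, h3⟩ := hex
          exact ⟨s, Finset.mem_filter.2 ⟨Finset.mem_Ioc.2 ⟨h1, h2⟩, h3⟩⟩
        have hmem := S.max'_mem hS
        have hmax : ∀ s ∈ S, s ≤ S.max' hS := fun s hs => S.le_max' s hs
        generalize S.max' hS = l at hmem hmax
        rw [Finset.mem_filter, Finset.mem_Ioc] at hmem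
        obtain ⟨⟨h1, h2⟩, h3⟩ := hmem
        refine ⟨l, w, h1.le, h2, le_rfl, fun s hs1 hs2 hs3 => ?_, fun Λ hΛ => ?_⟩
        · have := hmax s (Finset.mem_filter.2 ⟨Finset.mem_Ioc.2 ⟨by omega, hs2⟩, hs3⟩)
          omega
        · have h4 : smv ρ h t l ≤ w := by
            have h5 := hadd t l h1.le
            have h6 : smv ρ h 0 l ≤ smv ρ h 0 a := hm h2
            omega
          obtain ⟨r, hr⟩ := H1 t l h1.le (by omega) h4
          exact AccB.near Λ w _ _ r le_rfl (by omega) (H3 t l w h1.le (by omega) h3 h4) hr hΛ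
      · refine ⟨t, 0, le_rfl, ha1, Nat.zero_le _, fun s hs1 hs2 hs3 => hex ⟨s, hs1, hs2, hs3⟩,
          fun Λ hΛ => by simpa using hΛ⟩
    have htl := hadd t l hl1
    have hlT := hadd l T (by omega)
    -- the far step up to a time `e`
    have hfar : ∀ e, l ≤ e → e ≤ T → (∀ s, l < s → s < e → ¬ (ℓ + 1) ∣ (ρ s).p h) →
        ℓ < smv ρ h l e → AccB W M A Nb w (ℓ + 1) b (3 * smv ρ h t T + w) (ρ t) := by
      intro e he1 he2 he3 he4
      have hle := hadd l e he1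
      obtain ⟨f, hf1, hf2, hf3, -⟩ := ivt (fun s => smv ρ h 0 s) hm hs he1
        (v := smv ρ h 0 l + ℓ) (by simp) (by show smv ρ h 0 l + ℓ < smv ρ h 0 e; omega)
      have hlf := hadd l f hf1
      have hfl : l ≠ f := by
        rintro rfl
        omega
      obtain ⟨r, hr⟩ := H2 l f hf1 (by omega) (fun s hs1 hs2 => he3 s hs1 (by omega)) (by omega)
      have h1 := ih f (by omega) (by omega)
      have h2 := hl4 _ (AccB.far _ _ _ r (HA f (by omega)) hr h1)
      refine mono_le h2 ?_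
      have h3 := hadd f T (by omega)
      omega
    by_cases hmark : ∃ s, l < s ∧ s ≤ T ∧ (ℓ + 1) ∣ (ρ s).p h
    · have hf := Nat.find_spec hmark
      have hfm : ∀ s, l < s → s < Nat.find hmark → ¬ (ℓ + 1) ∣ (ρ s).p h := fun s h1 h2 h3 =>
        Nat.find_min hmark h2 ⟨h1, by omega, h3⟩
      generalize Nat.find hmark = f at hf hfm
      obtain ⟨hf1, hf2, hf3⟩ := hf
      have hlf := hadd l f hf1.le
      by_cases hσ : smv ρ h l f ≤ ℓ
      · have haf : a < f := by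
          by_contra hcon
          exact hl3 f hf1 (by omega) hf3
        have h5 : smv ρ h 0 t + w + 1 ≤ smv ρ h 0 f := ha4 f haf
        obtain ⟨r, hr⟩ := H2 l f hf1.le hf2 hfm hσ
        have h1 := ih f hf2 (by omega)
        have h2 := hl4 _ (AccB.near _ (max (smv ρ h l f) w) _ _ r (le_max_right _ _)
          (max_le (by omega) (by omega))
          (H3 l f _ hf1.le hf2 hf3 (le_max_left _ _)) hr h1)
        refine mono_le h2 ?_
        have h3 := hadd f T hf2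
        rcases max_cases (smv ρ h l f) w with ⟨h4, -⟩ | ⟨h4, -⟩ <;> rw [h4] <;> omega
      · exact hfar f hf1.le hf2 hfm (by omega)
    · have hno : ∀ s, l < s → s < T → ¬ (ℓ + 1) ∣ (ρ s).p h := fun s h1 h2 h3 =>
        hmark ⟨s, h1, h2.le, h3⟩
      by_cases hσ : smv ρ h l T ≤ ℓ
      · obtain ⟨r, hr⟩ := H2 l T (by omega) le_rfl hno hσ
        have h2 := hl4 _ (AccB.last (3 * smv ρ h t T + w - c0) _ _ r (HA T le_rfl) HF hr)
        exact mono_le h2 (by omega)
      · exact hfar T (by omega) le_rfl hno (by omega)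

end CHAIN

theorem t_CHAIN : S_CHAIN := by
  intro k Q g N W M A Nb b ℓ w T ρ h hw hwl H1 H2 H3 HA HF
  exact CHAIN.core W M A Nb b ℓ w T ρ h hw hwl H1 H2 H3 HA HF T 0 (Nat.zero_le _) (by omega)

end Pool.Agent.TH431.RK
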