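import Pool.Agent.TH431.RK.Stmts

/-!
# RK-NB: the size of the neighbourhoods, and where computations go
(job 5108 of helper431, written by helper365)
-/

set_option autoImplicit false

namespace Pool.Agent.TH431.RK

open Pool.Agent.H867R4
open Pool.Agent.H541R2 (rd mv mv_le le_mv)

namespace NB

variable {k : ℕ} {Q : Type}

theorem le_of_mem_cfgs [Fintype Q] {n : ℕ} {c : NCfg k Q} (h : c ∈ cfgs (Q := Q) k n)
    (i : Fin k) : c.p i ≤ n + 1 := by
  classical
  unfold cfgs at h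
  rw [Finset.mem_image] at h
  obtain ⟨x, hx, rfl⟩ := h
  simp only [Finset.mem_product, Finset.mem_univ, Fintype.mem_piFinset, Finset.mem_range,
    true_and] at hx
  have := hx i
  show x.2 i ≤ n + 1
  omega

theorem card_nb [Fintype Q] (n D J : ℕ) (h : Fin k) (_hD : 1 ≤ D) (hJ : n + 1 < J * D)
    (c : NCfg k Q) (δ : ℕ) :
    (nb (cfgs (Q := Q) k n) D h c δ).card ≤ Fintype.card Q * (J * (2 * δ + 1) ^ k) := by
  classical
  obtain ⟨f, hf⟩ : ∃ f : NCfg k Q → Q × (ℕ × (Fin k → ℕ)), ∀ d, f d =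
    (d.q, d.p h / D, fun i => if i = h then 0 else d.p i + δ - c.p i) := ⟨_, fun _ => rfl⟩
  have hS : ((Finset.univ : Finset Q) ×ˢ (Finset.range J ×ˢ
      Fintype.piFinset fun _ : Fin k => Finset.range (2 * δ + 1))).card =
      Fintype.card Q * (J * (2 * δ + 1) ^ k) := by
    simp [Finset.card_product]
  rw [← hS]
  refine Finset.card_le_card_of_injOn f ?_ ?_
  · intro d hd
    rw [Finset.mem_coe] at hd ⊢
    unfold nb at hd
    rw [Finset.mem_filter] at hd
    obtain ⟨hdA, hdD, hdn⟩ := hd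
    have h1 := le_of_mem_cfgs hdA h
    rw [hf]
    simp only [Finset.mem_product, Finset.mem_univ, Fintype.mem_piFinset, Finset.mem_range,
      true_and]
    refine ⟨Nat.div_lt_of_lt_mul (by rw [mul_comm]; omega), fun i => ?_⟩
    split_ifs with hi
    · omega
    · have h2 := hdn i hi
      omega
  · intro d hd d' hd' hdd
    rw [Finset.mem_coe] at hd hd'
    unfold nb at hd hd'
    rw [Finset.mem_filter] at hd hd'
    obtain ⟨-, hdD, hdn⟩ := hd
    obtain ⟨-, hdD', hdn'⟩ := hd'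
    rw [hf, hf] at hdd
    simp only [Prod.mk.injEq] at hdd
    obtain ⟨e1, e2, e3⟩ := hdd
    refine NCfg.ext e1 (funext fun i => ?_)
    by_cases hi : i = h
    · rw [hi, ← Nat.div_mul_cancel hdD, ← Nat.div_mul_cancel hdD', e2]
    · have h3 := congrFun e3 i
      simp only [if_neg hi] at h3
      have h4 := hdn i hi
      have h5 := hdn' i hi
      omega

theorem smv_mono (ρ : ℕ → NCfg k Q) (h : Fin k) (t m : ℕ) :
    smv ρ h t (t + m) ≤ smv ρ h t (t + (m + 1)) := by
  classical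
  unfold smv
  refine Finset.card_le_card (Finset.filter_subset_filter _ ?_)
  intro s hs
  rw [Finset.mem_Ico] at hs ⊢
  omega

theorem smv_succ (ρ : ℕ → NCfg k Q) (h : Fin k) (t m : ℕ)
    (hm : ∃ i, i ≠ h ∧ (ρ (t + m + 1)).p i ≠ (ρ (t + m)).p i) :
    smv ρ h t (t + m) + 1 ≤ smv ρ h t (t + (m + 1)) := by
  classical
  unfold smv
  have h1 : t + m ∉ (Finset.Ico t (t + m)).filter
      (fun s => ∃ i, i ≠ h ∧ (ρ (s + 1)).p i ≠ (ρ s).p i) := by
    simp
  rw [← Finset.card_insert_of_notMem h1]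
  refine Finset.card_le_card ?_
  intro s hs
  rw [Finset.mem_insert, Finset.mem_filter, Finset.mem_Ico] at hs
  rw [Finset.mem_filter, Finset.mem_Ico]
  rcases hs with rfl | ⟨hs1, hs2⟩
  · exact ⟨by omega, hm⟩
  · exact ⟨by omega, hs2⟩

theorem disp {α : Type} {M : NMach α k Q} {v : List α} {ρ : ℕ → NCfg k Q} {t : ℕ} (h : Fin k) :
    ∀ m, (∀ s, t ≤ s → s < t + m → M.Step v (ρ s) (ρ (s + 1))) →
      (∀ i, (ρ t).p i ≤ v.length + 1) → ∀ i, i ≠ h →
      (ρ (t + m)).p i ≤ (ρ t).p i + smv ρ h t (t + m) ∧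
        (ρ t).p i ≤ (ρ (t + m)).p i + smv ρ h t (t + m) := by
  intro m
  induction m with
  | zero =>
    intro _ _ i _
    exact ⟨Nat.le_add_right _ _, Nat.le_add_right _ _⟩
  | succ m ih =>
    intro h1 h2 i hi
    obtain ⟨a1, a2⟩ := ih (fun s hs hs' => h1 s hs (by omega)) h2 i hi
    have h3 : ∀ j, (ρ (t + m)).p j ≤ v.length + 1 := fun j =>
      (pos_close m (fun s hs hs' => h1 s hs (by omega)) h2 j).2.2
    obtain ⟨b1, b2, -⟩ := pos_close (M := M) (w := v) (ρ := ρ) (t := t + m) 1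
      (fun s hs hs' => h1 s (by omega) (by omega)) h3 i
    rw [show t + m + 1 = t + (m + 1) by ring] at b1 b2
    by_cases hmv : (ρ (t + m + 1)).p i = (ρ (t + m)).p i
    · rw [show t + m + 1 = t + (m + 1) by ring] at hmv
      have h4 := smv_mono ρ h t m
      omega
    · have h4 := smv_succ ρ h t m ⟨i, hi, hmv⟩
      omega

end NB

theorem t_NB : S_NB := by
  intro k Q _ n D J h hD hJ
  refine ⟨fun c δ => NB.card_nb n D J h hD hJ c δ, ?_⟩
  intro α M v ρ T hv hstep h0
  have hpos : ∀ t, t ≤ T → ∀ i, (ρ t).p i ≤ v.length + 1 := by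
    intro t ht i
    have h1 := (pos_close (M := M) (w := v) (ρ := ρ) (t := 0) t
      (fun s _ hs => hstep s (by omega)) (by rw [hv]; exact h0) i).2.2
    rwa [Nat.zero_add] at h1
  have hmem : ∀ t, t ≤ T → ρ t ∈ cfgs (Q := Q) k n := by
    intro t ht
    refine mem_cfgs fun i => ?_
    rw [← hv]
    exact hpos t ht i
  refine ⟨hmem, ?_⟩
  intro t t' δ htt ht' hDd hs
  unfold nb
  rw [Finset.mem_filter]
  refine ⟨hmem t' ht', hDd, fun i hi => ?_⟩
  obtain ⟨m, rfl⟩ := Nat.exists_eq_add_of_le htt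
  obtain ⟨a1, a2⟩ := NB.disp h m (fun s _ hs' => hstep s (by omega)) (hpos t (by omega)) i hi
  omega

end Pool.Agent.TH431.RK
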