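import Pool.Agent.TH431.RK.Stmts

/-! RK-NUM: the numerical condition. -/

set_option autoImplicit false

namespace Pool.Agent.TH431.RK

namespace NUM

theorem theta_pow {k d δ : ℕ} (hd : 3 ≤ d) (hδ : d ≤ δ) :
    (δ : ℝ) ^ (k + 3) ≤ (Real.exp (((k : ℝ) + 3) * Real.log d / d)) ^ δ := by
  have hd3 : (3 : ℝ) ≤ d := by exact_mod_cast hd
  have hδd : (d : ℝ) ≤ δ := by exact_mod_cast hδ
  have he : Real.exp 1 ≤ 3 := by
    have := Real.exp_one_lt_d9
    linarith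
  have h1 : Real.log δ / δ ≤ Real.log d / d :=
    Real.log_div_self_antitoneOn (show Real.exp 1 ≤ (d : ℝ) by linarith)
      (show Real.exp 1 ≤ (δ : ℝ) by linarith) hδd
  have hδ0 : (0 : ℝ) < δ := by linarith
  have h2 : Real.log δ ≤ δ * (Real.log d / d) := by
    rw [div_le_iff₀ hδ0] at h1
    linarith
  have h3 : (δ : ℝ) ^ (k + 3) = Real.exp (((k + 3 : ℕ) : ℝ) * Real.log δ) := by
    rw [Real.exp_nat_mul, Real.exp_log hδ0]
  rw [h3, ← Real.exp_nat_mul]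
  apply Real.exp_le_exp.2
  push_cast
  have h4 : (0 : ℝ) ≤ (k : ℝ) + 3 := by positivity
  have h5 := mul_le_mul_of_nonneg_left h2 h4
  calc ((k : ℝ) + 3) * Real.log δ ≤ ((k : ℝ) + 3) * (δ * (Real.log d / d)) := h5
    _ = (δ : ℝ) * (((k : ℝ) + 3) * Real.log d / d) := by ring

theorem sum_cube {d : ℕ} (hd : 3 ≤ d) (D : ℕ) (hD : d ≤ D) :
    ∑ δ ∈ Finset.Icc d D, 1 / (δ : ℝ) ^ 3 ≤ 1 / ((d : ℝ) - 1) - 1 / D := by
  have hd3 : (3 : ℝ) ≤ d := by exact_mod_cast hd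
  induction D, hD using Nat.le_induction with
  | base =>
    rw [Finset.Icc_self, Finset.sum_singleton]
    have hd1 : (d : ℝ) - 1 ≠ 0 := by
      have : (0 : ℝ) < d - 1 := by linarith
      exact this.ne'
    have h1 : 1 / ((d : ℝ) - 1) - 1 / d = 1 / ((d : ℝ) * (d - 1)) := by
      field_simp
      ring
    rw [h1]
    apply one_div_le_one_div_of_le
    · nlinarith
    · nlinarith [mul_nonneg (show (0 : ℝ) ≤ d by linarith) (show (0 : ℝ) ≤ d - 1 by linarith)]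
  | succ D hD ih =>
    rw [Finset.sum_Icc_succ_top (by omega)]
    have hDR : (3 : ℝ) ≤ D := by exact_mod_cast (le_trans hd hD)
    have h1 : 1 / ((D + 1 : ℕ) : ℝ) ^ 3 ≤ 1 / (D : ℝ) - 1 / ((D + 1 : ℕ) : ℝ) := by
      push_cast
      have h2 : 1 / (D : ℝ) - 1 / ((D : ℝ) + 1) = 1 / ((D : ℝ) * (D + 1)) := by
        field_simp
        ring
      rw [h2]
      apply one_div_le_one_div_of_le
      · positivity
      · nlinarith [mul_nonneg (show (0 : ℝ) ≤ D by linarith) (show (0 : ℝ) ≤ D + 1 by linarith)]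
    linarith

end NUM

theorem t_NUM : S_NUM := by
  intro k q J a hq hJ ha
  obtain ⟨C1, hC1⟩ : ∃ C1 : ℝ, C1 = (3 * k + 1 : ℝ) * (q * (J * 3 ^ k)) := ⟨_, rfl⟩
  obtain ⟨C2, hC2⟩ : ∃ C2 : ℝ, C2 = (3 * k + 1 : ℝ) * (q * a ^ k) := ⟨_, rfl⟩
  have hC10 : 0 ≤ C1 := by rw [hC1]; positivity
  have hC20 : 0 ≤ C2 := by rw [hC2]; positivity
  refine ⟨max 3 (⌈2 * (C1 + C2)⌉₊ + 1), le_max_left _ _, ?_⟩
  intro d D hd hdD n hn hnD
  have hd3 : 3 ≤ d := le_trans (le_max_left _ _) hd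
  have hd4 : ⌈2 * (C1 + C2)⌉₊ + 1 ≤ d := le_trans (le_max_right _ _) hd
  have hdR : (3 : ℝ) ≤ d := by exact_mod_cast hd3
  have hDR : (d : ℝ) ≤ D := by exact_mod_cast hdD
  have hd5 : 2 * (C1 + C2) ≤ (d : ℝ) - 1 := by
    have h1 := Nat.le_ceil (2 * (C1 + C2))
    have h2 : ((⌈2 * (C1 + C2)⌉₊ : ℕ) : ℝ) + 1 ≤ d := by exact_mod_cast hd4
    linarith
  have hterm : ∀ δ ∈ Finset.Icc d D, (3 * k + 1 : ℝ) * (q * (J * (2 * δ + 1) ^ k)) /
      (Real.exp ((k + 3) * Real.log d / d)) ^ δ ≤ C1 * (1 / (δ : ℝ) ^ 3) := by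
    intro δ hδ
    rw [Finset.mem_Icc] at hδ
    have hδR : (3 : ℝ) ≤ δ := by exact_mod_cast (le_trans hd3 hδ.1)
    have h1 := NUM.theta_pow (k := k) hd3 hδ.1
    have h2 : (0 : ℝ) < (δ : ℝ) ^ (k + 3) := by positivity
    have h3 : (2 * (δ : ℝ) + 1) ^ k ≤ (3 * δ) ^ k :=
      pow_le_pow_left₀ (by positivity) (by linarith) k
    calc (3 * k + 1 : ℝ) * (q * (J * (2 * δ + 1) ^ k)) /
        (Real.exp ((k + 3) * Real.log d / d)) ^ δ
        ≤ (3 * k + 1 : ℝ) * (q * (J * (3 * δ) ^ k)) / (δ : ℝ) ^ (k + 3) := by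
          apply div_le_div₀
          · positivity
          · gcongr
          · exact h2
          · exact h1
      _ = C1 * (1 / (δ : ℝ) ^ 3) := by
          rw [hC1, mul_pow, pow_add]
          field_simp
  have h1 : ∑ δ ∈ Finset.Icc d D, (3 * k + 1 : ℝ) * (q * (J * (2 * δ + 1) ^ k)) /
      (Real.exp ((k + 3) * Real.log d / d)) ^ δ ≤ C1 * (1 / ((d : ℝ) - 1) - 1 / D) := by
    refine (Finset.sum_le_sum hterm).trans ?_
    rw [← Finset.mul_sum]
    exact mul_le_mul_of_nonneg_left (NUM.sum_cube hd3 D hdD) hC10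
  have h2 : (3 * k + 1 : ℝ) * (q * (n + 2) ^ k) / (Real.exp ((k + 3) * Real.log d / d)) ^ D ≤
      C2 * (1 / ((d : ℝ) - 1)) := by
    have hD0 : (0 : ℝ) < D := by linarith
    have h3 := NUM.theta_pow (k := k) hd3 hdD
    have h4 : (n + 2) ^ k ≤ (a * D) ^ k := pow_le_pow_left₀ (by linarith) hnD k
    calc (3 * k + 1 : ℝ) * (q * (n + 2) ^ k) / (Real.exp ((k + 3) * Real.log d / d)) ^ D
        ≤ (3 * k + 1 : ℝ) * (q * (a * D) ^ k) / (D : ℝ) ^ (k + 3) := by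
          apply div_le_div₀
          · positivity
          · gcongr
          · positivity
          · exact h3
      _ = C2 * (1 / (D : ℝ) ^ 3) := by
          rw [hC2, mul_pow, pow_add]
          field_simp
      _ ≤ C2 * (1 / ((d : ℝ) - 1)) := by
          apply mul_le_mul_of_nonneg_left _ hC20
          apply one_div_le_one_div_of_le (by linarith)
          have h5 : (1 : ℝ) ≤ (D : ℝ) ^ 2 := one_le_pow₀ (by linarith)
          have h6 : (D : ℝ) * 1 ≤ D * (D : ℝ) ^ 2 := mul_le_mul_of_nonneg_left h5 hD0.le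
          have h7 : (D : ℝ) ^ 3 = D * (D : ℝ) ^ 2 := by ring
          linarith
  have h3 : C1 * (1 / ((d : ℝ) - 1) - 1 / D) ≤ C1 * (1 / ((d : ℝ) - 1)) := by
    apply mul_le_mul_of_nonneg_left _ hC10
    have : (0 : ℝ) ≤ 1 / D := by positivity
    linarith
  have h4 : (C1 + C2) * (1 / ((d : ℝ) - 1)) ≤ 1 / 2 := by
    rw [mul_one_div, div_le_iff₀ (by linarith)]
    linarith
  have h5 : (C1 + C2) * (1 / ((d : ℝ) - 1)) = C1 * (1 / ((d : ℝ) - 1)) + C2 * (1 / ((d : ℝ) - 1)) := by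
    ring
  linarith

end Pool.Agent.TH431.RK
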