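import Pool.Agent.TH431.RK.Stmts

/-!
# Pieces in which all heads but one move slowly are phases
-/

set_option autoImplicit false

namespace Pool.Agent.TH431.RK

open Pool.Agent.H867R4
open Pool.Agent.TH431.RB (Graded Rel blk ex hat Ph S_GB S_HAT1)
open Pool.Agent.H541R2 (gsign theLang mu)
open Pool.Agent.H38R3.MH (same_div close_div)

namespace ROW

section moves

variable {k : ℕ} {Q : Type}

theorem smv_self (ρ : ℕ → NCfg k Q) (h : Fin k) (t : ℕ) : smv ρ h t t = 0 := by
  simp [smv]

open Classical in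
theorem smv_succ (ρ : ℕ → NCfg k Q) (h : Fin k) (t m : ℕ) :
    smv ρ h t (t + (m + 1)) =
      smv ρ h t (t + m) +
        (if ∃ i, i ≠ h ∧ (ρ (t + m + 1)).p i ≠ (ρ (t + m)).p i then 1 else 0) := by
  unfold smv
  have e : Finset.Ico t (t + (m + 1)) = insert (t + m) (Finset.Ico t (t + m)) := by
    ext x
    simp only [Finset.mem_Ico, Finset.mem_insert]
    omega
  rw [e, Finset.filter_insert]
  split_ifs with hc
  · rw [Finset.card_insert_of_notMem (by simp)]
  · rw [Nat.add_zero]

theorem smv_mono (ρ : ℕ → NCfg k Q) (h : Fin k) (t m m' : ℕ) (hm : m ≤ m') :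
    smv ρ h t (t + m) ≤ smv ρ h t (t + m') := by
  unfold smv
  apply Finset.card_le_card
  apply Finset.filter_subset_filter
  apply Finset.Ico_subset_Ico le_rfl
  omega

/-- a slow head is displaced by at most the number of slow moves -/
theorem displ {α : Type} {M : NMach α k Q} {w : List α} {ρ : ℕ → NCfg k Q} (h i : Fin k)
    (hi : i ≠ h) (t : ℕ) :
    ∀ m, (∀ s, t ≤ s → s < t + m → M.Step w (ρ s) (ρ (s + 1))) →
      (∀ s, t ≤ s → s ≤ t + m → ∀ i, (ρ s).p i ≤ w.length + 1) →
      (ρ (t + m)).p i ≤ (ρ t).p i + smv ρ h t (t + m) ∧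
        (ρ t).p i ≤ (ρ (t + m)).p i + smv ρ h t (t + m) := by
  intro m
  induction m with
  | zero => intro _ _; rw [Nat.add_zero]; constructor <;> omega
  | succ m ih =>
    intro h1 h2
    obtain ⟨a1, a2⟩ := ih (fun s hs hs' => h1 s hs (by omega)) (fun s hs hs' => h2 s hs (by omega))
    rw [smv_succ]
    obtain ⟨b1, b2, _⟩ := pos_close (t := t + m) 1
      (fun s hs hs'' => h1 s (by omega) (by omega)) (h2 (t + m) (by omega) (by omega)) i
    rw [show t + (m + 1) = t + m + 1 by ring]
    by_cases hc : (ρ (t + m + 1)).p i = (ρ (t + m)).p i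
    · rw [hc]
      constructor <;> omega
    · rw [if_pos ⟨i, hi, hc⟩]
      constructor <;> omega

end moves

theorem zone_append {Q : Type} (C : Code Q) (l l' : List Bool) :
    C.zone (l ++ l') = C.zone l ++ C.zone l' := by
  simp [Code.zone]

theorem zone_ex {Q : Type} (C : Code Q) (m : ℕ) (l : List Bool) :
    C.zone (ex m l) = ((l.map (fun x => C.zone (blk m x))).flatten) := by
  induction l with
  | nil => simp [ex, Code.zone]
  | cons x l ih =>
    have e : ex m (x :: l) = blk m x ++ ex m l := by simp [ex]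
    rw [e, zone_append, ih, List.map_cons, List.flatten_cons]

theorem blk_length (m : ℕ) (hm : 1 ≤ m) (x : Bool) : (blk m x).length = m := by
  simp only [blk, List.length_cons, List.length_replicate]
  omega

theorem hat_congr (m : ℕ) (P P' : List Bool) {g N : ℕ} (b b' : Fin g → Fin N → Bool) (j : Fin g)
    (h : b' j = b j) : hat m P P' b j = hat m P P' b' j := by
  unfold hat
  rw [h]

end ROW

open ROW

theorem t_ROW : S_GB → S_SLOW → S_HAT1 → S_ROW := by
  intro hGB hSLOW hHAT k Q C m hm hidem d P P' hrel M N b h ρ T hN hd hst hpos t t' htt ht' hmv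
  obtain ⟨n, rfl⟩ := Nat.exists_eq_add_of_le htt
  obtain ⟨D, hD⟩ : ∃ D, D = (P.length + N + P'.length) * m * (C.x₁.length + 1) + 1 := ⟨_, rfl⟩
  have hDpos : 0 < D := by omega
  have hdD : d < D := by omega
  have hNN : 1 ≤ (P.length + N + P'.length) * m := Nat.mul_pos (by omega) (by omega)
  -- the slow heads stay close
  have hclose : ∀ i, i ≠ h → ∀ s, t ≤ s → s ≤ t + n →
      (ρ s).p i ≤ (ρ t).p i + D ∧ (ρ t).p i ≤ (ρ s).p i + D := by
    intro i hi s hs hs'
    obtain ⟨e, rfl⟩ := Nat.exists_eq_add_of_le hs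
    obtain ⟨a1, a2⟩ := displ (M := M) (w := C.W (hat m P P' b)) (ρ := ρ) h i hi t e
      (fun s hs hs'' => hst s (by omega)) (fun s hs hs'' => hpos s (by omega))
    have a3 := smv_mono ρ h t e n (by omega)
    constructor <;> omega
  obtain ⟨r, hr⟩ := exists_row (fun (i : Fin k) (e : Fin 3) =>
    if i = h then (if e = 0 then (ρ t).p i / D else (ρ (t + n)).p i / D)
    else (ρ t).p i / D + e.val - 1)
  -- the slow heads are outside the zone all the time
  have hout : ∀ s, t ≤ s → s ≤ t + n → ∀ i, i ≠ h →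
      Out (C.U (hat m P P' b) r) (C.zone (List.ofFn (hat m P P' b r))) ((ρ s).p i) := by
    intro s hs hs' i hi
    apply out_of_block
    rw [← hD]
    intro hblk
    obtain ⟨a1, a2⟩ := hclose i hi s hs hs'
    have e0 := hr i 0
    have e1 := hr i 1
    have e2 := hr i 2
    simp only [hi, if_false, Fin.val_zero, Fin.val_one, Fin.val_two] at e0 e1 e2
    have hq1 : (ρ s).p i / D ≤ (ρ t).p i / D + 1 := by
      calc (ρ s).p i / D ≤ ((ρ t).p i + D) / D := Nat.div_le_div_right a1
        _ = (ρ t).p i / D + 1 := Nat.add_div_right _ hDpos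
    have hq2 : (ρ t).p i / D ≤ (ρ s).p i / D + 1 := by
      calc (ρ t).p i / D ≤ ((ρ s).p i + D) / D := Nat.div_le_div_right a2
        _ = (ρ s).p i / D + 1 := Nat.add_div_right _ hDpos
    omega
  have houtt : Out (C.U (hat m P P' b) r) (C.zone (List.ofFn (hat m P P' b r)))
      ((ρ t).p h) := by
    apply out_of_block
    rw [← hD]
    have e0 := hr h 0
    simpa using e0
  have houtm : Out (C.U (hat m P P' b) r) (C.zone (List.ofFn (hat m P P' b r)))
      ((ρ (t + n)).p h) := by
    apply out_of_block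
    rw [← hD]
    have e1 := hr h 1
    simpa using e1
  refine ⟨r, ?_⟩
  intro b' hb'
  obtain ⟨hU, hU'⟩ := C.U_congr (hat m P P' b) (hat m P P' b') r
    (fun j hj => hat_congr m P P' b b' j (hb' j hj))
  show Relation.ReflTransGen (M.Step (C.W (hat m P P' b'))) (ρ t) (ρ (t + n))
  rw [C.W_split (hat m P P' b') r, ← hU, ← hU']
  refine hSLOW (Fin 4) Q k M (C.U (hat m P P' b) r) (C.zone (List.ofFn (hat m P P' b r)))
    (C.zone (List.ofFn (hat m P P' b' r))) (C.U' (hat m P P' b) r) (C.U_ne _ _)
    (by rw [C.zone_length, C.zone_length]; simp) ?_ d ?_ h ρ t n ?_ hout houtt houtm hmv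
  · rw [C.zone_length, List.length_ofFn]
    exact Nat.mul_pos hNN (by omega)
  · intro TT hG e s x y hxy hB
    have e1 : C.zone (List.ofFn (hat m P P' b r)) =
        (((P ++ List.ofFn (b r) ++ P').map (fun x => C.zone (blk m x))).flatten) := by
      rw [hHAT m P P' (3 * k + 1) N b r hm, zone_ex]
    have e2 : C.zone (List.ofFn (hat m P P' b' r)) =
        (((P ++ List.ofFn (b' r) ++ P').map (fun x => C.zone (blk m x))).flatten) := by
      rw [hHAT m P P' (3 * k + 1) N b' r hm, zone_ex]
    rw [e1] at hB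
    rw [e2]
    have hl : ∀ x, (C.zone (blk m x)).length = m * (C.x₁.length + 1) := by
      intro x
      rw [C.zone_length, blk_length m hm]
    refine hGB Q (Fin 4) (fun x => C.zone (blk m x)) ?_ ?_ ?_ hidem TT hG d _ _
      (hrel (List.ofFn (b r)) (List.ofFn (b' r))) e s x y hxy hB
    · show 1 ≤ (C.zone (blk m true)).length
      rw [hl]
      exact Nat.mul_pos (by omega) (by omega)
    · show (C.zone (blk m false)).length = (C.zone (blk m true)).length
      rw [hl, hl]
    · exact C.beh_zone _ _ (by rw [blk_length m hm, blk_length m hm])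
  · intro s hs hs'
    rw [← C.W_split (hat m P P' b) r]
    exact hst s (by omega)

/-- the phase of a gap, for any matrix -/
theorem ROW.gap {k : ℕ} {Q : Type} (C : Code Q) (M : NMach (Fin 4) k Q) {N : ℕ} (hN : 1 ≤ N)
    (b : Fin (3 * k + 1) → Fin N → Bool) {ρ : ℕ → NCfg k Q} (h : Fin k) (t m : ℕ)
    (h1 : ∀ s, t ≤ s → s < t + m → M.Step (C.W b) (ρ s) (ρ (s + 1)))
    (h2 : ∀ s, t ≤ s → s ≤ t + m → ∀ i, (ρ s).p i ≤ (C.W b).length + 1)
    (h3 : ∀ s, t < s → s < t + m → ¬ (N * (C.x₁.length + 1) + 1) ∣ (ρ s).p h)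
    (h4 : smv ρ h t (t + m) ≤ N * (C.x₁.length + 1)) :
    ∃ r, Phase C M b r (ρ t) (ρ (t + m)) := by
  by_cases hm : m ≤ 1
  · exact phase_short C M b t m (by nlinarith) h1 (h2 t le_rfl (by omega))
  obtain ⟨D, hD⟩ : ∃ D, D = N * (C.x₁.length + 1) + 1 := ⟨_, rfl⟩
  have hDpos : 0 < D := by omega
  rw [← hD] at h3
  have hcl : ∀ s, t ≤ s → s < t + m → ∀ i, (ρ s).p i ≤ (ρ (s + 1)).p i + 1 ∧
      (ρ (s + 1)).p i ≤ (ρ s).p i + 1 := by
    intro s hs hs' i
    obtain ⟨a1, a2, _⟩ := pos_close (t := s) 1 (fun s' hs hs'' => h1 s' (by omega) (by omega))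
      (h2 s hs (by omega)) i
    exact ⟨a2, a1⟩
  have hconst : ∀ e, t + 1 + e < t + m → (ρ (t + 1 + e)).p h / D = (ρ (t + 1)).p h / D := by
    intro e
    induction e with
    | zero => intro _; rfl
    | succ e ih =>
      intro he
      rw [← ih (by omega)]
      obtain ⟨a1, a2⟩ := hcl (t + 1 + e) (by omega) (by omega) h
      refine (same_div a1 a2 ?_ ?_).symm
      · intro hd
        exact h3 (t + 1 + e) (by omega) (by omega) hd
      · intro hd
        exact h3 (t + 1 + e + 1) (by omega) (by omega) hd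
  obtain ⟨r, hr⟩ := exists_row (fun (i : Fin k) (e : Fin 3) =>
    if i = h then (ρ (t + 1)).p i / D + e.val - 1 else (ρ t).p i / D + e.val - 1)
  refine ⟨r, ?_⟩
  unfold Phase
  have hW := C.W_split b r
  apply free_of_out m t
  · intro s hs hs'
    rw [← hW]
    exact h1 s hs hs'
  · intro s hs hs' i
    apply out_of_block
    rw [← hD]
    intro hblk
    have e0 := hr i 0
    have e1 := hr i 1
    have e2 := hr i 2
    by_cases hi : i = h
    · subst hi
      simp only [if_true, Fin.val_zero, Fin.val_one, Fin.val_two] at e0 e1 e2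
      have hq : (ρ s).p i / D ≤ (ρ (t + 1)).p i / D + 1 ∧
          (ρ (t + 1)).p i / D ≤ (ρ s).p i / D + 1 := by
        by_cases hst : s = t
        · subst hst
          obtain ⟨a1, a2⟩ := hcl s le_rfl (by omega) i
          exact ⟨close_div hDpos a1, close_div hDpos a2⟩
        · by_cases hsm : s = t + m
          · obtain ⟨a1, a2⟩ := hcl (t + 1 + (m - 2)) (by omega) (by omega) i
            have e3 : t + 1 + (m - 2) + 1 = t + m := by omega
            rw [e3] at a1 a2
            have := hconst (m - 2) (by omega)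
            rw [← this, hsm]
            exact ⟨close_div hDpos a2, close_div hDpos a1⟩
          · have := hconst (s - t - 1) (by omega)
            rw [show t + 1 + (s - t - 1) = s by omega] at this
            omega
      omega
    · simp only [hi, if_false, Fin.val_zero, Fin.val_one, Fin.val_two] at e0 e1 e2
      obtain ⟨e, rfl⟩ := Nat.exists_eq_add_of_le hs
      obtain ⟨a1, a2⟩ := displ (M := M) (w := C.W b) (ρ := ρ) h i hi t e
        (fun s hs hs'' => h1 s hs (by omega)) (fun s hs hs'' => h2 s hs (by omega))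
      have a3 := smv_mono ρ h t e m (by omega)
      have hq1 : (ρ (t + e)).p i / D ≤ (ρ t).p i / D + 1 := by
        calc (ρ (t + e)).p i / D ≤ ((ρ t).p i + D) / D := Nat.div_le_div_right (by omega)
          _ = (ρ t).p i / D + 1 := Nat.add_div_right _ hDpos
      have hq2 : (ρ t).p i / D ≤ (ρ (t + e)).p i / D + 1 := by
        calc (ρ t).p i / D ≤ ((ρ (t + e)).p i + D) / D := Nat.div_le_div_right (by omega)
          _ = (ρ (t + e)).p i / D + 1 := Nat.add_div_right _ hDpos
      omega

theorem t_GAP : S_GAP := by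
  intro k Q C m P P' M N b h ρ T hm hN hst hpos t t' htt ht' hmark hmv
  obtain ⟨n, rfl⟩ := Nat.exists_eq_add_of_le htt
  have hNN : 1 ≤ (P.length + N + P'.length) * m := Nat.mul_pos (by omega) (by omega)
  obtain ⟨r, hr⟩ := ROW.gap C M hNN (hat m P P' b) h t n
    (fun s hs hs' => hst s (by omega)) (fun s hs hs' => hpos s (by omega)) hmark hmv
  refine ⟨r, ?_⟩
  intro b' hb'
  have h1 := phase_indep C M r (ρ t) (ρ (t + n)) (hat m P P' b) (hat m P P' b')
    (fun j hj => hat_congr m P P' b b' j (hb' j hj)) hr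
  have h2 := Free.sound h1
  rw [← C.W_split (hat m P P' b') r] at h2
  exact h2

end Pool.Agent.TH431.RK
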