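import Pool.Agent.TH431.RK.Stmts

/-!
# RK-SLOW: a piece in which all heads but `h` move slowly, outside the zone
-/

set_option autoImplicit false

namespace Pool.Agent.TH431.RK

open Pool.Agent.H867R4
open Pool.Agent.H541R2 (rd mv)
open Pool.Agent.TH431.RB (Graded)

namespace SLOW

variable {α Q : Type}

theorem smv_mono {k : ℕ} (ρ : ℕ → NCfg k Q) (h : Fin k) (t : ℕ) {s s' : ℕ} (hs : s ≤ s') :
    smv ρ h t s ≤ smv ρ h t s' := by
  unfold smv
  exact Finset.card_le_card (Finset.filter_subset_filter _ (Finset.Ico_subset_Ico le_rfl hs))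

theorem smv_succ_ne {k : ℕ} (ρ : ℕ → NCfg k Q) (h : Fin k) {t s : ℕ} (hs : t ≤ s)
    (hm : ∃ i, i ≠ h ∧ (ρ (s + 1)).p i ≠ (ρ s).p i) :
    smv ρ h t (s + 1) = smv ρ h t s + 1 := by
  classical
  unfold smv
  have e : Finset.Ico t (s + 1) = insert s (Finset.Ico t s) := by
    ext x
    simp only [Finset.mem_Ico, Finset.mem_insert]
    omega
  rw [e, Finset.filter_insert, if_pos hm, Finset.card_insert_of_notMem]
  simp

theorem smv_succ_eq {k : ℕ} (ρ : ℕ → NCfg k Q) (h : Fin k) {t s : ℕ} (hs : t ≤ s)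
    (hm : ∀ i, i ≠ h → (ρ (s + 1)).p i = (ρ s).p i) : smv ρ h t (s + 1) = smv ρ h t s := by
  classical
  unfold smv
  have e : Finset.Ico t (s + 1) = insert s (Finset.Ico t s) := by
    ext x
    simp only [Finset.mem_Ico, Finset.mem_insert]
    omega
  have hn : ¬ ∃ i, i ≠ h ∧ (ρ (s + 1)).p i ≠ (ρ s).p i := by
    rintro ⟨i, hi, hi'⟩
    exact hi' (hm i hi)
  rw [e, Finset.filter_insert, if_neg hn]

theorem smv_self {k : ℕ} (ρ : ℕ → NCfg k Q) (h : Fin k) (t : ℕ) : smv ρ h t t = 0 := by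
  unfold smv
  simp

/-- no moves of the slow heads between two times with the same number of moves -/
theorem p_eq_of_smv {k : ℕ} (ρ : ℕ → NCfg k Q) (h : Fin k) {t s : ℕ} (hs : t ≤ s) (j : Fin k)
    (hj : j ≠ h) :
    ∀ n : ℕ, smv ρ h t s = smv ρ h t (s + n) → (ρ s).p j = (ρ (s + n)).p j := by
  intro n
  induction n with
  | zero => intro _; rfl
  | succ n ih =>
    intro h1
    have h2 := smv_mono ρ h t (s := s) (s' := s + n) (by omega)
    have h3 := smv_mono ρ h t (s := s + n) (s' := s + (n + 1)) (by omega)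
    have h4 : smv ρ h t s = smv ρ h t (s + n) := by omega
    rw [ih h4]
    by_contra hne
    have h5 := smv_succ_ne ρ h (t := t) (s := s + n) (by omega) ⟨j, hj, fun h => hne h.symm⟩
    have e : s + n + 1 = s + (n + 1) := by ring
    rw [e] at h5
    omega

theorem p_eq_of_smv' {k : ℕ} (ρ : ℕ → NCfg k Q) (h : Fin k) {t s s' : ℕ} (hs : t ≤ s)
    (hs' : t ≤ s') (he : smv ρ h t s = smv ρ h t s') (j : Fin k) (hj : j ≠ h) :
    (ρ s).p j = (ρ s').p j := by
  rcases le_total s s' with h1 | h1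
  · obtain ⟨n, rfl⟩ := Nat.exists_eq_add_of_le h1
    exact p_eq_of_smv ρ h hs j hj n he
  · obtain ⟨n, rfl⟩ := Nat.exists_eq_add_of_le h1
    exact (p_eq_of_smv ρ h hs' j hj n he.symm).symm

open Classical in
/-- the positions of the heads in the stage `i` -/
noncomputable def pos {k : ℕ} (ρ : ℕ → NCfg k Q) (h : Fin k) (t m i : ℕ) : Fin k → ℕ :=
  if H : ∃ s, t ≤ s ∧ s ≤ t + m ∧ smv ρ h t s = i then (ρ H.choose).p else (ρ (t + m)).p

theorem pos_eq {k : ℕ} (ρ : ℕ → NCfg k Q) (h : Fin k) {t m s : ℕ} (h1 : t ≤ s) (h2 : s ≤ t + m)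
    (j : Fin k) (hj : j ≠ h) : pos ρ h t m (smv ρ h t s) j = (ρ s).p j := by
  have H : ∃ s', t ≤ s' ∧ s' ≤ t + m ∧ smv ρ h t s' = smv ρ h t s := ⟨s, h1, h2, rfl⟩
  unfold pos
  rw [dif_pos H]
  obtain ⟨a1, _, a3⟩ := H.choose_spec
  exact p_eq_of_smv' ρ h a1 h1 a3 j hj

theorem pos_out {k : ℕ} {U Z : List α} (ρ : ℕ → NCfg k Q) (h : Fin k) {t m : ℕ}
    (h2 : ∀ s, t ≤ s → s ≤ t + m → ∀ i, i ≠ h → Out U Z ((ρ s).p i)) (i : ℕ) (j : Fin k)
    (hj : j ≠ h) : Out U Z (pos ρ h t m i j) := by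
  unfold pos
  split_ifs with H
  · obtain ⟨a1, a2, _⟩ := H.choose_spec
    exact h2 _ a1 a2 j hj
  · exact h2 _ (by omega) le_rfl j hj

/-- the machine with the free head `h` only; the stage is a part of the state -/
def Mh {k : ℕ} (M : NMach α k Q) (w : List α) (h : Fin k) (ps : ℕ → Fin k → ℕ) :
    NMach α 1 (Q × ℕ) where
  δ := fun x cells => {z | ∃ y ∈ M.δ x.1 (fun a => if a = h then cells 0 else rd w (ps x.2 a)),
    z.1.1 = y.1 ∧ z.2 0 = y.2 h ∧
      ((z.1.2 = x.2 ∧ ∀ i, i ≠ h → mv w.length (y.2 i) (ps x.2 i) = ps x.2 i) ∨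
        (z.1.2 = x.2 + 1 ∧ ∀ i, i ≠ h → mv w.length (y.2 i) (ps x.2 i) = ps (x.2 + 1) i))}
  q₀ := (M.q₀, 0)
  F := ∅

theorem graded_tbl {k : ℕ} (M : NMach α k Q) (w : List α) (h : Fin k) (ps : ℕ → Fin k → ℕ)
    (w' : List α) (g : Fin 1) (c : NCfg 1 (Q × ℕ)) : Graded (tbl (Mh M w h ps) w' g c) := by
  intro x a z hz
  obtain ⟨y, hy, h1, _, _⟩ := hz
  obtain ⟨y', _, _, _, h2⟩ := hy
  rw [← h1]
  rcases h2 with h2 | h2
  · exact Or.inl h2.1
  · exact Or.inr h2.1

theorem esc_mono {T : Table (Q × ℕ) α} (hT : Graded T) {y : List α} {q : Q × ℕ} {i : ℕ} {s : Bool}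
    {r : Q × ℕ} (hE : Esc T y q i s r) : q.2 ≤ r.2 := by
  induction hE with
  | outL q => exact le_rfl
  | outR q => exact le_rfl
  | step q i a q' m s r h1 h2 h3 _ ih =>
    have := hT q (false, some a) (q', m) h3
    simp only at this
    omega

theorem step_mono {k : ℕ} {M : NMach α k Q} {w : List α} {h : Fin k} {ps : ℕ → Fin k → ℕ}
    {w' : List α} {c c' : NCfg 1 (Q × ℕ)} (hs : (Mh M w h ps).Step w' c c') :
    c.q.2 ≤ c'.q.2 := by
  obtain ⟨x, hx, h1, _⟩ := hs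
  obtain ⟨y, _, _, _, h2⟩ := hx
  rw [h1]
  rcases h2 with h2 | h2
  · exact h2.1.ge
  · rw [h2.1]; omega

/-- the computations on the word with the other zone -/
theorem free_run {k : ℕ} {M : NMach α k Q} {w U Z Z' U' : List α} (hU : U ≠ [])
    (hZ : Z.length = Z'.length) {h : Fin k} {ps : ℕ → Fin k → ℕ} {D : ℕ}
    (hH : ∀ T : Table (Q × ℕ) α, Graded T → ∀ (e s : Bool) (x y : Q × ℕ), y.2 ≤ x.2 + D →
      Beh Z T e x s y → Beh Z' T e x s y) {c d : NCfg 1 (Q × ℕ)}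
    (hF : Free (Mh M w h ps) U Z U' c d) :
    c.q.2 ≤ d.q.2 ∧ (d.q.2 ≤ c.q.2 + D →
      Relation.ReflTransGen ((Mh M w h ps).Step (U ++ Z' ++ U')) c d) := by
  induction hF with
  | refl c => exact ⟨le_rfl, fun _ => Relation.ReflTransGen.refl⟩
  | step c c' d h1 h2 _ ih =>
    have h3 := step_mono h2
    refine ⟨h3.trans ih.1, fun h4 => ?_⟩
    exact Relation.ReflTransGen.head (step_out hU hZ h1 h2) (ih.2 (by omega))
  | trav g e s r c d h1 h2 h3 _ ih =>
    have hg := graded_tbl M w h ps (U ++ Z ++ U') g c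
    have h4 : c.q.2 ≤ r.2 := esc_mono hg h3
    have h5 : r.2 ≤ d.q.2 := ih.1
    refine ⟨h4.trans h5, fun h6 => ?_⟩
    have h7 := hH _ hg e s c.q r (by omega) h3
    rw [tbl_out hU hZ h1] at h7
    have hE : Esc (tbl (Mh M w h ps) (U ++ Z' ++ U') g c) Z' c.q
      (if e then Z'.length else 1) s r := h7
    have h8 := hE.run
    rw [← hZ, ← h2, NCfg.set_self] at h8
    refine h8.trans (ih.2 ?_)
    have e1 : (c.set g r (U.length + if s = true then Z.length + 1 else 0)).q.2 = r.2 := rfl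
    omega

/-- the configuration of the machine with `k` heads -/
def Phi {k : ℕ} (h : Fin k) (ps : ℕ → Fin k → ℕ) (c : NCfg 1 (Q × ℕ)) : NCfg k Q :=
  ⟨c.q.1, fun a => if a = h then c.p 0 else ps c.q.2 a⟩

theorem phi_step {k : ℕ} {M : NMach α k Q} {U Z Z' U' : List α} (hU : U ≠ [])
    (hZ : Z.length = Z'.length) {h : Fin k} {ps : ℕ → Fin k → ℕ}
    (hps : ∀ i j, j ≠ h → Out U Z (ps i j)) {c c' : NCfg 1 (Q × ℕ)}
    (hs : (Mh M (U ++ Z ++ U') h ps).Step (U ++ Z' ++ U') c c') :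
    M.Step (U ++ Z' ++ U') (Phi h ps c) (Phi h ps c') := by
  obtain ⟨x, hx, h1, h2⟩ := hs
  obtain ⟨y, hy, h3, h4, h5⟩ := hx
  refine ⟨y, ?_, ?_, ?_⟩
  · have e : (fun i => rd (U ++ Z' ++ U') ((Phi h ps c).p i)) =
        fun a => if a = h then rd (U ++ Z' ++ U') (c.p 0) else rd (U ++ Z ++ U') (ps c.q.2 a) := by
      funext a
      unfold Phi
      simp only
      split_ifs with ha
      · rfl
      · exact (rd_out hU hZ (hps _ _ ha)).symm
    rw [e]
    exact hy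
  · show c'.q.1 = y.1
    rw [h1, h3]
  · intro a
    unfold Phi
    simp only
    rw [h1]
    split_ifs with ha
    · rw [h2 0, h4, ha]
    · rw [len_eq (U' := U') hZ] at h5
      rcases h5 with h5 | h5
      · rw [h5.1, h5.2 a ha]
      · rw [h5.1, h5.2 a ha]

end SLOW

open SLOW in
theorem t_SLOW : S_SLOW := by
  intro α Q k M U Z Z' U' hU hZ hZ1 d hH h ρ t m h1 h2 h3 h4 h5
  set ps : ℕ → Fin k → ℕ := pos ρ h t m with hps
  set w : List α := U ++ Z ++ U' with hw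
  set ρ' : ℕ → NCfg 1 (Q × ℕ) := fun s => ⟨((ρ s).q, smv ρ h t s), fun _ => (ρ s).p h⟩ with hρ'
  have hphi : ∀ s, t ≤ s → s ≤ t + m → Phi h ps (ρ' s) = ρ s := by
    intro s hs hs'
    apply NCfg.ext
    · rfl
    · funext a
      show (if a = h then (ρ s).p h else ps (smv ρ h t s) a) = (ρ s).p a
      split_ifs with ha
      · rw [ha]
      · rw [hps, pos_eq ρ h hs hs' a ha]
  have hstep : ∀ s, t ≤ s → s < t + m → (Mh M w h ps).Step w (ρ' s) (ρ' (s + 1)) := by
    intro s hs hs'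
    obtain ⟨x, hx, a1, a2⟩ := h1 s hs hs'
    have hp : ∀ i, i ≠ h → ps (smv ρ h t s) i = (ρ s).p i := by
      intro i hi
      rw [hps, pos_eq ρ h hs (by omega) i hi]
    have hp' : ∀ i, i ≠ h → ps (smv ρ h t (s + 1)) i = (ρ (s + 1)).p i := by
      intro i hi
      rw [hps, pos_eq ρ h (by omega) (by omega) i hi]
    refine ⟨(((ρ (s + 1)).q, smv ρ h t (s + 1)), fun _ => x.2 h), ⟨x, ?_, a1, rfl, ?_⟩, rfl, ?_⟩
    · have e : (fun a => if a = h then rd w ((ρ s).p h) else rd w (ps (smv ρ h t s) a)) =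
          fun i => rd w ((ρ s).p i) := by
        funext a
        split_ifs with ha
        · rw [ha]
        · rw [hp a ha]
      show x ∈ M.δ (ρ s).q (fun a => if a = h then rd w ((ρ s).p h) else
        rd w (ps (smv ρ h t s) a))
      rw [e]
      exact hx
    · show (smv ρ h t (s + 1) = smv ρ h t s ∧
          ∀ i, i ≠ h → mv w.length (x.2 i) (ps (smv ρ h t s) i) = ps (smv ρ h t s) i) ∨
        (smv ρ h t (s + 1) = smv ρ h t s + 1 ∧
          ∀ i, i ≠ h → mv w.length (x.2 i) (ps (smv ρ h t s) i) = ps (smv ρ h t s + 1) i)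
      by_cases hm : ∃ i, i ≠ h ∧ (ρ (s + 1)).p i ≠ (ρ s).p i
      · right
        have e := smv_succ_ne ρ h hs hm
        refine ⟨e, fun i hi => ?_⟩
        rw [← e, hp' i hi, hp i hi, a2 i]
      · left
        push Not at hm
        refine ⟨smv_succ_eq ρ h hs hm, fun i hi => ?_⟩
        rw [hp i hi, ← a2 i, hm i hi]
    · intro i
      exact a2 h
  have hfree := (free_of_solo (M := Mh M w h ps) (U := U) (Z := Z) (U' := U') hZ1 (ρ := ρ')
    (h := (0 : Fin 1)) m t hstep (fun s _ _ i hi => absurd (Subsingleton.elim i 0) hi)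
    (fun i hi => absurd (Subsingleton.elim i 0) hi) h4).1 h3
  have hrun := (free_run (M := M) (w := w) hU hZ hH hfree).2 (by
    show smv ρ h t (t + m) ≤ smv ρ h t t + d
    rw [smv_self]
    omega)
  have hlift : Relation.ReflTransGen (M.Step (U ++ Z' ++ U')) (Phi h ps (ρ' t))
      (Phi h ps (ρ' (t + m))) := Relation.ReflTransGen.lift (Phi h ps)
    (fun c c' hs => phi_step (M := M) hU hZ (fun i j hj => pos_out ρ h h2 i j hj) hs) _ _ hrun
  rw [hphi t le_rfl (by omega), hphi (t + m) (by omega) le_rfl] at hlift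
  exact hlift

end Pool.Agent.TH431.RK
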