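import Pool.Agent.TH431.RK.Fin
import Pool.Agent.TH431.RK.SLOW
import Pool.Agent.TH431.RK.ROW
import Pool.Agent.TH431.RK.CHAIN
import Pool.Agent.TH431.RK.NB
import Pool.Agent.TH431.RK.NUM
import Pool.Agent.TH431.RB.All

set_option autoImplicit false

namespace Pool.Agent.TH431.RK

open Pool.Agent.H867R4
open Pool.Agent.H541R2 (theLang)
open Pool.Agent.TH431.RB (mvs mvs_sweeps)

theorem final' (hCARD : S_CARD) : S_FINAL :=
  t_FINAL RB.t_PAD RB.t_IDEM RB.t_HAT2 hCARD t_CHAIN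
    (t_ROW (RB.t_GB RB.t_GB1 RB.t_GB2) t_SLOW RB.t_HAT1) t_GAP t_NB t_NUM

/-- The steps at which some head other than `h` moves are at most the moves of these heads. -/
theorem smv_le {k : ℕ} {Q : Type} (ρ : ℕ → NCfg k Q) (h : Fin k) (T B : ℕ)
    (hB : ∀ i, i ≠ h → mvs ρ i 0 T ≤ B) : smv ρ h 0 T ≤ k * B := by
  classical
  have hsub : ((Finset.Ico 0 T).filter (fun s => ∃ i, i ≠ h ∧ (ρ (s + 1)).p i ≠ (ρ s).p i)) ⊆
      (Finset.univ.filter (fun i : Fin k => i ≠ h)).biUnion (fun i =>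
        (Finset.Ico 0 T).filter (fun s => (ρ (s + 1)).p i ≠ (ρ s).p i)) := by
    intro s hs
    rw [Finset.mem_filter] at hs
    obtain ⟨hs1, i, hi, hi2⟩ := hs
    rw [Finset.mem_biUnion]
    exact ⟨i, by simp [hi], by rw [Finset.mem_filter]; exact ⟨hs1, hi2⟩⟩
  have h1 := (Finset.card_le_card hsub).trans Finset.card_biUnion_le
  have h2 : ∑ i ∈ Finset.univ.filter (fun i : Fin k => i ≠ h),
      ((Finset.Ico 0 T).filter (fun s => (ρ (s + 1)).p i ≠ (ρ s).p i)).card ≤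
      ∑ _i ∈ Finset.univ.filter (fun i : Fin k => i ≠ h), B := by
    apply Finset.sum_le_sum
    intro i hi
    rw [Finset.mem_filter] at hi
    exact hB i hi.2
  have h3 : ∑ _i ∈ Finset.univ.filter (fun i : Fin k => i ≠ h), B ≤ k * B := by
    rw [Finset.sum_const, smul_eq_mul]
    apply Nat.mul_le_mul_right
    refine (Finset.card_filter_le _ _).trans ?_
    simp
  have e : smv ρ h 0 T =
      ((Finset.Ico 0 T).filter (fun s => ∃ i, i ≠ h ∧ (ρ (s + 1)).p i ≠ (ρ s).p i)).card := by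
    unfold smv
    congr
  rw [e]
  exact h1.trans (h2.trans h3)

end Pool.Agent.TH431.RK
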