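import Pool.Agent.TH431.RK.Stmts

/-!
# RK-CARD (helper355): few matrices are accepted along chains of phases with budget `Λ`
-/

set_option autoImplicit false

namespace Pool.Agent.TH431.RK

open Finset
open Pool.Agent.H867R4
open Pool.Agent.TH431.RB (Ph)
open Pool.Agent.H541R2 (gsign mu mu_nonneg IsCyl isCyl_univ cyl_card)

namespace CARD

variable {k : ℕ} {Q : Type}

theorem ph_indep {g N : ℕ} {W : (Fin g → Fin N → Bool) → List (Fin 4)} {M : NMach (Fin 4) k Q}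
    {b b' : Fin g → Fin N → Bool} {r : Fin g} (h : ∀ j, j ≠ r → b j = b' j) {c d : NCfg k Q}
    (hp : Ph W M b r c d) : Ph W M b' r c d :=
  fun b'' hb'' => hp b'' (fun j hj => (hb'' j hj).trans (h j hj).symm)

theorem isCyl_ph {g N : ℕ} {W : (Fin g → Fin N → Bool) → List (Fin 4)} {M : NMach (Fin 4) k Q}
    {S : Set (Fin g → Fin N → Bool)} (hS : IsCyl S) (r : Fin g) (c d : NCfg k Q) :
    IsCyl (S ∩ {b | Ph W M b r c d}) :=
  hS.inter r _ fun _ _ hbb hT => ph_indep hbb hT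

theorem card_biUnion_real {ι α : Type} [DecidableEq α] (s : Finset ι) (t : ι → Finset α)
    (f : ι → ℝ) (h : ∀ i ∈ s, ((t i).card : ℝ) ≤ f i) :
    ((s.biUnion t).card : ℝ) ≤ ∑ i ∈ s, f i := by
  have h1 : ((s.biUnion t).card : ℝ) ≤ ((∑ i ∈ s, (t i).card : ℕ) : ℝ) :=
    Nat.cast_le.2 Finset.card_biUnion_le
  rw [Nat.cast_sum] at h1
  exact h1.trans (Finset.sum_le_sum h)

open Classical in
theorem main {g N : ℕ} (W : (Fin (g + 1) → Fin N → Bool) → List (Fin 4))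
    (M : NMach (Fin 4) k Q) (A : Finset (NCfg k Q)) (Nb : NCfg k Q → ℕ → Finset (NCfg k Q))
    (w D : ℕ) (κ : ℕ → ℝ) (θ : ℝ) (hw : 1 ≤ w) (hD : 1 ≤ D) (hθ : 1 ≤ θ)
    (hNb : ∀ c δ, w ≤ δ → δ ≤ D → ((Nb c δ).card : ℝ) ≤ κ δ)
    (hsum : (∑ δ ∈ Finset.Icc w D, (g + 1 : ℝ) * κ δ / θ ^ δ) + (g + 1 : ℝ) * A.card / θ ^ D ≤
      1 / 2) (σ : ℝ) (hσ : |σ| = 1) : ∀ (Λ : ℕ) (c : NCfg k Q)
    (S : Set (Fin (g + 1) → Fin N → Bool)), IsCyl S →
    (∀ b ∈ S, AccB W M A Nb w D b Λ c → gsign Finset.univ b = σ) →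
    ((Finset.univ.filter (fun b : Fin (g + 1) → Fin N → Bool =>
      b ∈ S ∧ AccB W M A Nb w D b Λ c)).card : ℝ) ≤
      2 * ((g + 1 : ℝ) * A.card) * θ ^ Λ * ((2 ^ N : ℝ) ^ (g + 1) * (mu g) ^ N) := by
  obtain ⟨X, hX⟩ : ∃ X : ℝ, X = (2 ^ N : ℝ) ^ (g + 1) * (mu g) ^ N := ⟨_, rfl⟩
  have hX0 : 0 ≤ X := by
    rw [hX]
    have := mu_nonneg g
    positivity
  rw [← hX]
  obtain ⟨a, ha⟩ : ∃ a : ℝ, a = (g + 1 : ℝ) * A.card := ⟨_, rfl⟩
  have ha0 : 0 ≤ a := by rw [ha]; positivity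
  have hθ0 : 0 < θ := lt_of_lt_of_le one_pos hθ
  rw [← ha] at hsum ⊢
  intro Λ
  induction Λ using Nat.strong_induction_on with
  | _ Λ ih =>
  intro c S hS hb
  have hκ : ∀ δ ∈ Finset.Icc w D, 0 ≤ κ δ := fun δ hδ =>
    (Nat.cast_nonneg _).trans (hNb c δ (Finset.mem_Icc.1 hδ).1 (Finset.mem_Icc.1 hδ).2)
  have hΛ1 : 1 ≤ θ ^ Λ := one_le_pow₀ hθ
  -- the three families
  obtain ⟨G1, hG1⟩ : ∃ G : Fin (g + 1) × NCfg k Q → Finset (Fin (g + 1) → Fin N → Bool),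
      ∀ x, G x = Finset.univ.filter (fun b => b ∈ S ∩ {b | Ph W M b x.1 c x.2}) := ⟨_, fun _ => rfl⟩
  obtain ⟨G2, hG2⟩ : ∃ G : ℕ → Fin (g + 1) × NCfg k Q → Finset (Fin (g + 1) → Fin N → Bool),
      ∀ δ x, G δ x = Finset.univ.filter (fun b => δ ≤ Λ ∧ (b ∈ S ∩ {b | Ph W M b x.1 c x.2} ∧
        AccB W M A Nb w D b (Λ - δ) x.2)) := ⟨_, fun _ _ => rfl⟩
  have hsub : (Finset.univ.filter (fun b : Fin (g + 1) → Fin N → Bool =>
      b ∈ S ∧ AccB W M A Nb w D b Λ c)) ⊆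
      (((Finset.univ : Finset (Fin (g + 1))) ×ˢ A).filter (fun x => x.2.q ∈ M.F)).biUnion G1 ∪
      ((Finset.Icc w D).biUnion (fun δ =>
        ((Finset.univ : Finset (Fin (g + 1))) ×ˢ Nb c δ).biUnion (G2 δ)) ∪
      ((Finset.univ : Finset (Fin (g + 1))) ×ˢ A).biUnion (G2 D)) := by
    intro b hb'
    obtain ⟨_, hbS, hacc⟩ := Finset.mem_filter.1 hb'
    rw [Finset.mem_union, Finset.mem_union]
    cases hacc with
    | last _ _ d r hd hF hp =>
      left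
      rw [Finset.mem_biUnion]
      refine ⟨(r, d), Finset.mem_filter.2 ⟨Finset.mem_product.2 ⟨Finset.mem_univ _, hd⟩, hF⟩, ?_⟩
      rw [hG1]
      exact Finset.mem_filter.2 ⟨Finset.mem_univ _, hbS, hp⟩
    | near Λ' δ _ d r hδ1 hδ2 hd hp hrec =>
      right; left
      rw [Finset.mem_biUnion]
      refine ⟨δ, Finset.mem_Icc.2 ⟨hδ1, hδ2⟩, ?_⟩
      rw [Finset.mem_biUnion]
      refine ⟨(r, d), Finset.mem_product.2 ⟨Finset.mem_univ _, hd⟩, ?_⟩
      rw [hG2]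
      refine Finset.mem_filter.2 ⟨Finset.mem_univ _, Nat.le_add_left _ _, ⟨hbS, hp⟩, ?_⟩
      rw [Nat.add_sub_cancel]
      exact hrec
    | far Λ' _ d r hd hp hrec =>
      right; right
      rw [Finset.mem_biUnion]
      refine ⟨(r, d), Finset.mem_product.2 ⟨Finset.mem_univ _, hd⟩, ?_⟩
      rw [hG2]
      refine Finset.mem_filter.2 ⟨Finset.mem_univ _, Nat.le_add_left _ _, ⟨hbS, hp⟩, ?_⟩
      rw [Nat.add_sub_cancel]
      exact hrec
  -- sizes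
  have b1 : ((((Finset.univ : Finset (Fin (g + 1))) ×ˢ A).filter
      (fun x => x.2.q ∈ M.F)).biUnion G1).card ≤ a * X := by
    refine (card_biUnion_real _ G1 (fun _ => X) ?_).trans ?_
    · intro x hx
      obtain ⟨hx1, hx2⟩ := Finset.mem_filter.1 hx
      rw [hG1, hX]
      have h := cyl_card (isCyl_ph hS x.1 c x.2) σ hσ fun b hbx =>
        hb b hbx.1 (AccB.last Λ c x.2 x.1 (Finset.mem_product.1 hx1).2 hx2 hbx.2)
      convert h
    · rw [Finset.sum_const, nsmul_eq_mul]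
      refine mul_le_mul_of_nonneg_right ?_ hX0
      have h1 := Finset.card_filter_le ((Finset.univ : Finset (Fin (g + 1))) ×ˢ A)
        (fun x => x.2.q ∈ M.F)
      have h2 : (((((Finset.univ : Finset (Fin (g + 1))) ×ˢ A).filter
          (fun x => x.2.q ∈ M.F)).card : ℕ) : ℝ) ≤
          ((((Finset.univ : Finset (Fin (g + 1))) ×ˢ A).card : ℕ) : ℝ) := Nat.cast_le.2 h1
      refine h2.trans (le_of_eq ?_)
      rw [Finset.card_product, Finset.card_univ, Fintype.card_fin, ha]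
      push_cast
      ring
  -- one family of the second kind
  have b2 : ∀ δ, 1 ≤ δ → (∀ x : Fin (g + 1) × NCfg k Q, ∀ b, δ ≤ Λ → b ∈ S → Ph W M b x.1 c x.2 →
      AccB W M A Nb w D b (Λ - δ) x.2 → x.2 ∈ Nb c δ ∧ w ≤ δ ∧ δ ≤ D ∨ x.2 ∈ A ∧ δ = D →
      AccB W M A Nb w D b Λ c) → ∀ x : Fin (g + 1) × NCfg k Q,
      (x.2 ∈ Nb c δ ∧ w ≤ δ ∧ δ ≤ D ∨ x.2 ∈ A ∧ δ = D) →
      ((G2 δ x).card : ℝ) ≤ 2 * a * θ ^ Λ * X / θ ^ δ := by
    intro δ hδ hup x hx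
    by_cases hδΛ : δ ≤ Λ
    · have e : G2 δ x = Finset.univ.filter (fun b => b ∈ S ∩ {b | Ph W M b x.1 c x.2} ∧
          AccB W M A Nb w D b (Λ - δ) x.2) := by
        rw [hG2]
        ext b
        simp [hδΛ]
      rw [e]
      have hθδ : θ ^ Λ = θ ^ (Λ - δ) * θ ^ δ := by rw [← pow_add, Nat.sub_add_cancel hδΛ]
      have h := ih (Λ - δ) (by omega) x.2 _ (isCyl_ph hS x.1 c x.2) fun b hbx hacc =>
        hb b hbx.1 (hup x b hδΛ hbx.1 hbx.2 hacc hx)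
      have h' : 2 * a * θ ^ Λ * X / θ ^ δ = 2 * a * θ ^ (Λ - δ) * X := by
        rw [hθδ]
        field_simp
      rw [h']
      convert h
    · have e : G2 δ x = ∅ := by
        rw [hG2]
        ext b
        simp [hδΛ]
      rw [e, Finset.card_empty, Nat.cast_zero]
      positivity
  have hup : ∀ δ, ∀ x : Fin (g + 1) × NCfg k Q, ∀ b, δ ≤ Λ → b ∈ S → Ph W M b x.1 c x.2 →
      AccB W M A Nb w D b (Λ - δ) x.2 → x.2 ∈ Nb c δ ∧ w ≤ δ ∧ δ ≤ D ∨ x.2 ∈ A ∧ δ = D →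
      AccB W M A Nb w D b Λ c := by
    intro δ x b hδΛ _ hp hrec hx
    rcases hx with ⟨h1, h2, h3⟩ | ⟨h1, h2⟩
    · have := AccB.near (Λ - δ) δ c x.2 x.1 h2 h3 h1 hp hrec
      rwa [Nat.sub_add_cancel hδΛ] at this
    · subst h2
      have := AccB.far (Λ - δ) c x.2 x.1 h1 hp hrec
      rwa [Nat.sub_add_cancel hδΛ] at this
  have b3 : (((Finset.Icc w D).biUnion (fun δ =>
      ((Finset.univ : Finset (Fin (g + 1))) ×ˢ Nb c δ).biUnion (G2 δ))).card : ℝ) ≤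
      ∑ δ ∈ Finset.Icc w D, (g + 1 : ℝ) * κ δ / θ ^ δ * (2 * a * θ ^ Λ * X) := by
    refine card_biUnion_real _ _ _ fun δ hδ => ?_
    obtain ⟨h1, h2⟩ := Finset.mem_Icc.1 hδ
    refine (card_biUnion_real _ (G2 δ) (fun _ => 2 * a * θ ^ Λ * X / θ ^ δ) fun x hx =>
      b2 δ (hw.trans h1) (hup δ) x (Or.inl ⟨(Finset.mem_product.1 hx).2, h1, h2⟩)).trans ?_
    rw [Finset.sum_const, nsmul_eq_mul, Finset.card_product, Finset.card_univ, Fintype.card_fin]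
    have h3 := hNb c δ h1 h2
    have h4 : 0 ≤ 2 * a * θ ^ Λ * X / θ ^ δ := by positivity
    calc (((g + 1) * (Nb c δ).card : ℕ) : ℝ) * (2 * a * θ ^ Λ * X / θ ^ δ)
        = ((g + 1 : ℝ) * (Nb c δ).card) * (2 * a * θ ^ Λ * X / θ ^ δ) := by push_cast; ring
      _ ≤ ((g + 1 : ℝ) * κ δ) * (2 * a * θ ^ Λ * X / θ ^ δ) := by
          refine mul_le_mul_of_nonneg_right ?_ h4
          exact mul_le_mul_of_nonneg_left h3 (by positivity)
      _ = _ := by ring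
  have b4 : ((((Finset.univ : Finset (Fin (g + 1))) ×ˢ A).biUnion (G2 D)).card : ℝ) ≤
      a / θ ^ D * (2 * a * θ ^ Λ * X) := by
    refine (card_biUnion_real _ (G2 D) (fun _ => 2 * a * θ ^ Λ * X / θ ^ D) fun x hx =>
      b2 D hD (hup D) x (Or.inr ⟨(Finset.mem_product.1 hx).2, rfl⟩)).trans (le_of_eq ?_)
    rw [Finset.sum_const, nsmul_eq_mul, Finset.card_product, Finset.card_univ, Fintype.card_fin, ha]
    push_cast
    ring
  have h0 : ((Finset.univ.filter (fun b : Fin (g + 1) → Fin N → Bool =>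
      b ∈ S ∧ AccB W M A Nb w D b Λ c)).card : ℝ) ≤
      ((((Finset.univ : Finset (Fin (g + 1))) ×ˢ A).filter
        (fun x => x.2.q ∈ M.F)).biUnion G1).card + ((((Finset.Icc w D).biUnion (fun δ =>
      ((Finset.univ : Finset (Fin (g + 1))) ×ˢ Nb c δ).biUnion (G2 δ))).card : ℝ) +
      ((((Finset.univ : Finset (Fin (g + 1))) ×ˢ A).biUnion (G2 D)).card : ℝ)) := by
    have h1 := (Finset.card_le_card hsub).trans ((Finset.card_union_le _ _).trans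
      (Nat.add_le_add_left (Finset.card_union_le _ _) _))
    exact_mod_cast h1
  rw [← Finset.sum_mul] at b3
  have h5 : 0 ≤ 2 * a * θ ^ Λ * X := by positivity
  have h6 := mul_le_mul_of_nonneg_right hsum h5
  rw [add_mul] at h6
  have h7 : a * X ≤ a * θ ^ Λ * X := by
    have : a * X * 1 ≤ a * X * θ ^ Λ := mul_le_mul_of_nonneg_left hΛ1 (by positivity)
    linarith
  linarith

end CARD

open Classical in
theorem t_CARD : S_CARD := by
  intro k Q g N W M A Nb w D κ θ hw hD hθ hNb hsum σ hσ Λ c hb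
  have h := CARD.main W M A Nb w D κ θ hw hD hθ hNb hsum σ hσ Λ c Set.univ isCyl_univ
    fun b _ hacc => hb b hacc
  have e : (Finset.univ.filter (fun b : Fin (g + 1) → Fin N → Bool =>
      AccB W M A Nb w D b Λ c)) = Finset.univ.filter (fun b : Fin (g + 1) → Fin N → Bool =>
      b ∈ Set.univ ∧ AccB W M A Nb w D b Λ c) := by
    ext b
    simp
  rw [e]
  convert h

end Pool.Agent.TH431.RK
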