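import Pool.Agent.TH431.RK.All
import Pool.Agent.TH431.RK.CARD

set_option autoImplicit false

namespace Pool.Agent.TH431.RK

theorem final : S_FINAL := final' t_CARD

end Pool.Agent.TH431.RK
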