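import Pool.Agent.TH431.RK.Stmts

set_option autoImplicit false

namespace Pool.Agent.TH431.RK

open Finset
open Pool.Agent.H867R4
open Pool.Agent.TH431.RB (Graded Rel blk ex hat Ph)
open Pool.Agent.H541R2 (rd mv gsign mu mu_nonneg mu_lt_one sign_card num_aux theLang)

theorem AccB.mono_fin {k : ℕ} {Q : Type} {g N : ℕ} {W : (Fin g → Fin N → Bool) → List (Fin 4)}
    {M : NMach (Fin 4) k Q} {A : Finset (NCfg k Q)} {Nb : NCfg k Q → ℕ → Finset (NCfg k Q)}
    {w D : ℕ} {b : Fin g → Fin N → Bool} {Λ : ℕ} {c : NCfg k Q}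
    (h : AccB W M A Nb w D b Λ c) (e : ℕ) : AccB W M A Nb w D b (Λ + e) c := by
  induction h with
  | last Λ c d r h1 h2 h3 => exact AccB.last _ _ d r h1 h2 h3
  | near Λ δ c d r h1 h2 h3 h4 _ ih =>
    rw [show Λ + δ + e = Λ + e + δ by ring]
    exact AccB.near _ _ _ d r h1 h2 h3 h4 ih
  | far Λ c d r h1 h2 _ ih =>
    rw [show Λ + D + e = Λ + e + D by ring]
    exact AccB.far _ _ d r h1 h2 ih

theorem t_FINAL (hPAD : RB.S_PAD) (hIDEM : RB.S_IDEM) (hHAT2 : RB.S_HAT2) (hCARD : S_CARD)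
    (hCHAIN : S_CHAIN) (hROW : S_ROW) (hGAP : S_GAP) (hNB : S_NB) (hNUM : S_NUM) : S_FINAL := by
  intro k Q _
  classical
  by_cases hQ : Nonempty Q
  swap
  · refine ⟨1, one_pos, fun n₀ => ⟨n₀, le_rfl, fun M => ?_⟩⟩
    exact absurd ⟨M.q₀⟩ hQ
  obtain ⟨C⟩ := exists_code Q
  obtain ⟨m, hm1, hidem⟩ := hIDEM Q C
  obtain ⟨V, hV⟩ : ∃ V, V = C.x₁.length + 1 := ⟨_, rfl⟩
  have hV1 : 1 ≤ V := by omega
  obtain ⟨g, hg⟩ : ∃ g, g = 3 * k := ⟨_, rfl⟩
  obtain ⟨μ', hμ'⟩ : ∃ μ' : ℝ, μ' = max (mu g) (1 / 2) := ⟨_, rfl⟩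
  have hμ'1 : μ' < 1 := by rw [hμ']; exact max_lt (mu_lt_one g) (by norm_num)
  have hμ'0 : 0 < μ' := by rw [hμ']; exact lt_of_lt_of_le (by norm_num) (le_max_right _ _)
  obtain ⟨lam, hlam⟩ : ∃ lam : ℝ, lam = -Real.log μ' := ⟨_, rfl⟩
  have hlam0 : 0 < lam := by
    have := Real.log_neg hμ'0 hμ'1
    linarith
  have hmR : (1 : ℝ) ≤ m := by exact_mod_cast hm1
  have hVR : (1 : ℝ) ≤ V := by exact_mod_cast hV1
  have hg0 : (0 : ℝ) ≤ g := by positivity
  obtain ⟨C4, hC4⟩ : ∃ C4 : ℝ, C4 = (g + 2) * (2 * m * V + 1) := ⟨_, rfl⟩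
  have hC40 : 0 < C4 := by rw [hC4]; positivity
  have hC41 : 1 ≤ C4 := by
    rw [hC4]
    have h2 : (0 : ℝ) ≤ 2 * m * V := by positivity
    nlinarith
  obtain ⟨q, hq⟩ : ∃ q : ℝ, q = Fintype.card Q := ⟨_, rfl⟩
  have hq1 : 1 ≤ q := by
    rw [hq]
    exact_mod_cast Fintype.card_pos
  have hlog16 : 0 < Real.log 16 := Real.log_pos (by norm_num)
  have hlogC4 : 0 ≤ Real.log C4 := Real.log_nonneg hC41
  obtain ⟨C6, hC6⟩ : ∃ C6 : ℝ, C6 = Real.log C4 + 3 * Real.log 16 := ⟨_, rfl⟩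
  have hC60 : 0 < C6 := by rw [hC6]; linarith
  obtain ⟨β, hβ⟩ : ∃ β : ℝ, β = k + 3 := ⟨_, rfl⟩
  have hβ0 : 0 < β := by rw [hβ]; positivity
  obtain ⟨d₀, hd₀3, hnum⟩ := hNUM k q (3 * k + 3) (3 * k + 3) hq1
    (by have : (0 : ℝ) ≤ k := by positivity
        linarith)
    (by have : (0 : ℝ) ≤ k := by positivity
        linarith)
  obtain ⟨B, hB⟩ : ∃ B : ℝ, B = k * (2 * ((g + 1) * (q * (C4 + 2) ^ k))) := ⟨_, rfl⟩
  have hB0 : 0 ≤ B := by rw [hB]; positivity
  refine ⟨lam / (24 * β * C4 * C6), by positivity, fun n₀ => ?_⟩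
  -- choose `N`
  obtain ⟨rr, hrr⟩ : ∃ rr : ℝ, rr = Real.exp (-(3 * lam / 4)) := ⟨_, rfl⟩
  have hrr0 : 0 < rr := by rw [hrr]; exact Real.exp_pos _
  have hrr1 : rr < 1 := by
    rw [hrr, Real.exp_lt_one_iff]
    linarith
  have hev : ∀ᶠ N : ℕ in Filter.atTop, B * ((N : ℝ) ^ k * rr ^ N) < 1 / 4 ∧ μ' ^ N < 1 / 2 ∧
      n₀ ≤ N ∧ 16 ^ (d₀ + 4) ≤ N ∧ 8 * β / lam * Real.log N ≤ (N : ℝ) := by
    have t1 : Filter.Tendsto (fun N : ℕ => B * ((N : ℝ) ^ k * rr ^ N)) Filter.atTop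
        (nhds (B * 0)) := by
      apply Filter.Tendsto.const_mul
      exact tendsto_pow_const_mul_const_pow_of_abs_lt_one k
        (by rw [abs_of_pos hrr0]; exact hrr1)
    rw [mul_zero] at t1
    have t2 := tendsto_pow_atTop_nhds_zero_of_lt_one hμ'0.le hμ'1
    have t3 : Filter.Tendsto (fun N : ℕ => 8 * β / lam * (Real.log (N : ℝ) / (N : ℝ)))
        Filter.atTop (nhds (8 * β / lam * 0)) := by
      apply Filter.Tendsto.const_mul
      have h1 : Filter.Tendsto (fun x : ℝ => Real.log x / x) Filter.atTop (nhds 0) := by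
        have := Real.tendsto_pow_log_div_mul_add_atTop 1 0 1 one_ne_zero
        simpa using this
      exact h1.comp tendsto_natCast_atTop_atTop
    rw [mul_zero] at t3
    filter_upwards [t1.eventually (gt_mem_nhds (show (0:ℝ) < 1/4 by norm_num)),
      t2.eventually (gt_mem_nhds (show (0:ℝ) < 1/2 by norm_num)),
      Filter.eventually_ge_atTop n₀, Filter.eventually_ge_atTop (16 ^ (d₀ + 4)),
      t3.eventually (gt_mem_nhds (show (0:ℝ) < 1 by norm_num)),
      Filter.eventually_ge_atTop 1] with N a1 a2 a3 a4 a5 a6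
    refine ⟨a1, a2, a3, a4, ?_⟩
    have hN0 : (0 : ℝ) < N := by exact_mod_cast a6
    have h1 : 8 * β / lam * (Real.log (N : ℝ) / (N : ℝ)) * N ≤ 1 * N := by
      apply mul_le_mul_of_nonneg_right a5.le hN0.le
    have h2 : 8 * β / lam * (Real.log (N : ℝ) / (N : ℝ)) * N = 8 * β / lam * Real.log N := by
      field_simp
    linarith
  obtain ⟨N, hN1, hN2, hN3, hN4, hN5⟩ := hev.exists
  -- the parameter `d` and the paddings
  have hlogN : d₀ + 4 ≤ Nat.log 16 N := Nat.le_log_of_pow_le (by norm_num) hN4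
  obtain ⟨d, hd⟩ : ∃ d, Nat.log 16 N = d + 1 := ⟨Nat.log 16 N - 1, by omega⟩
  have hd1 : d₀ ≤ d := by omega
  have hd3 : 3 ≤ d := by omega
  have hNpos : 1 ≤ N := le_trans (Nat.one_le_pow _ _ (by norm_num)) hN4
  have hdN : 16 ^ (d + 1) ≤ N := by
    rw [← hd]
    exact Nat.pow_log_le_self 16 (by omega)
  have hdN2 : N < 16 ^ (d + 2) := by
    have := Nat.lt_pow_succ_log_self (b := 16) (by norm_num) N
    rw [hd] at this
    exact this
  obtain ⟨P, P', hPlen, hP⟩ := hPAD d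
  obtain ⟨N', hN'⟩ : ∃ N', N' = (P.length + N + P'.length) * m := ⟨_, rfl⟩
  have hNN' : N ≤ N' := by
    rw [hN']
    calc N ≤ P.length + N + P'.length := by omega
      _ ≤ _ := Nat.le_mul_of_pos_right _ (by omega)
  have hN'N : N' ≤ 2 * N * m := by
    rw [hN']
    apply Nat.mul_le_mul_right
    omega
  have hddN : d ≤ N := by
    have h1 : d + 1 < 16 ^ (d + 1) := Nat.lt_pow_self (by norm_num)
    omega
  obtain ⟨D, hD⟩ : ∃ D, D = N' * V + 1 := ⟨_, rfl⟩
  obtain ⟨n, hn⟩ : ∃ n, n = (g + 2) * (N' * V + 1) - 1 := ⟨_, rfl⟩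
  have hn1 : n + 1 = (g + 2) * (N' * V + 1) := by
    have : 1 ≤ (g + 2) * (N' * V + 1) := Nat.one_le_iff_ne_zero.mpr (by positivity)
    omega
  have hNV : N' ≤ N' * V := Nat.le_mul_of_pos_right _ (by omega)
  have hnN : N ≤ n := by
    have h1 : N' * V + 1 ≤ (g + 2) * (N' * V + 1) := Nat.le_mul_of_pos_left _ (by omega)
    omega
  refine ⟨n, by omega, ?_⟩
  intro M hM
  have hN1' : (1 : ℝ) ≤ N := by exact_mod_cast hNpos
  have hnC : (n : ℝ) ≤ C4 * N := by
    have h1 : (n : ℝ) + 1 = (g + 2) * (N' * V + 1) := by exact_mod_cast hn1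
    have h2 : (N' : ℝ) ≤ 2 * N * m := by exact_mod_cast hN'N
    have h3 : ((g : ℝ) + 2) * (N' * V + 1) ≤ (g + 2) * (2 * N * m * V + N) := by gcongr
    have h4 : ((g : ℝ) + 2) * (2 * N * m * V + N) = C4 * N := by rw [hC4]; ring
    linarith
  subst hg
  obtain ⟨A, hA⟩ : ∃ A, A = cfgs (Q := Q) k n := ⟨_, rfl⟩
  have hAcard : (A.card : ℝ) ≤ q * (n + 2) ^ k := by
    have h1 := cfgs_card (Q := Q) k n
    rw [← hA] at h1
    rw [hq]
    exact_mod_cast h1
  have hAcard' : (A.card : ℝ) ≤ q * (C4 + 2) ^ k * (N : ℝ) ^ k := by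
    refine hAcard.trans ?_
    have h3 : (n : ℝ) + 2 ≤ (C4 + 2) * N := by
      have : (C4 + 2) * (N : ℝ) = C4 * N + 2 * N := by ring
      linarith
    calc q * ((n : ℝ) + 2) ^ k ≤ q * ((C4 + 2) * N) ^ k := by gcongr
      _ = q * (C4 + 2) ^ k * (N : ℝ) ^ k := by rw [mul_pow]; ring
  obtain ⟨θ, hθ⟩ : ∃ θ : ℝ, θ = Real.exp ((k + 3) * Real.log d / d) := ⟨_, rfl⟩
  have hdR : (3 : ℝ) ≤ d := by exact_mod_cast hd3
  have hlogd : 0 < Real.log d := Real.log_pos (by linarith)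
  have hθ1 : 1 ≤ θ := by
    rw [hθ]
    apply Real.one_le_exp
    positivity
  -- the budget
  obtain ⟨Λ, hΛ⟩ : ∃ Λ : ℕ, Λ = ⌊lam * N * d / (4 * β * Real.log d)⌋₊ := ⟨_, rfl⟩
  have hΛ1 : (Λ : ℝ) ≤ lam * N * d / (4 * β * Real.log d) := by
    rw [hΛ]; exact Nat.floor_le (by positivity)
  have hΛ2 : lam * N * d / (4 * β * Real.log d) < Λ + 1 := by
    rw [hΛ]; exact Nat.lt_floor_add_one _
  have hθΛ : θ ^ Λ ≤ Real.exp (N * lam / 4) := by
    rw [hθ, ← Real.exp_nat_mul]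
    apply Real.exp_le_exp.mpr
    calc (Λ : ℝ) * ((k + 3) * Real.log d / d)
        ≤ (lam * N * d / (4 * β * Real.log d)) * ((k + 3) * Real.log d / d) := by gcongr
      _ = N * lam / 4 := by
          rw [hβ]
          field_simp
  obtain ⟨W, hW⟩ : ∃ W : (Fin (3 * k + 1) → Fin N → Bool) → List (Fin 4),
      W = fun b => C.W (hat m P P' b) := ⟨_, rfl⟩
  have hlenW : ∀ b : Fin (3 * k + 1) → Fin N → Bool, (C.W (hat m P P' b)).length = n := by
    intro b
    have := C.W_length (hat m P P' b)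
    obtain ⟨L, hL⟩ : ∃ L, L = (C.W (hat m P P' b)).length := ⟨_, rfl⟩
    rw [← hL] at this ⊢
    rw [← hV, ← hN'] at this
    have e : (3 * k + 1 + 1) * (N' * V + 1) = (3 * k + 2) * (N' * V + 1) := by ring
    omega
  have hlenW' : ∀ b : Fin (3 * k + 1) → Fin N → Bool, (W b).length = n := by
    intro b; rw [hW]; exact hlenW b
  have hDJ : n + 1 < (3 * k + 3) * (N' * V + 1) := by
    have : (3 * k + 3) * (N' * V + 1) = (3 * k + 2) * (N' * V + 1) + (N' * V + 1) := by ring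
    omega
  have hDR : (1 : ℝ) ≤ D := by
    have : 1 ≤ D := by omega
    exact_mod_cast this
  have hn2D : (n : ℝ) + 2 ≤ (3 * k + 3) * D := by
    have h1 : n + 2 ≤ (3 * k + 3) * D := by rw [hD]; omega
    exact_mod_cast h1
  have hsum := hnum d D hd1 (by rw [hD]; nlinarith) n (by positivity) hn2D
  -- the sign
  obtain ⟨κ, hκ, hsign⟩ := hHAT2 m P P' (3 * k) N hm1
  obtain ⟨σ, hσ⟩ : ∃ σ : ℝ, σ = -κ := ⟨_, rfl⟩
  have hσ1 : σ = 1 ∨ σ = -1 := by
    rcases hκ with h | h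
    · right; rw [hσ, h]
    · left; rw [hσ, h]; norm_num
  have hσabs : |σ| = 1 := by
    rcases hσ1 with h | h <;> rw [h] <;> norm_num
  have hmem : ∀ b : Fin (3 * k + 1) → Fin N → Bool, W b ∈ theLang ↔ gsign Finset.univ b = σ := by
    intro b
    rw [hW]
    show C.W (hat m P P' b) ∈ theLang ↔ _
    rw [W_mem C, hsign b, hσ]
    rcases hκ with h | h <;> rw [h]
    · rw [one_mul]
    · constructor
      · intro h1; linarith
      · intro h1; linarith
  obtain ⟨c₀, hc₀⟩ : ∃ c₀ : NCfg k Q, c₀ = ⟨M.q₀, fun _ => 0⟩ := ⟨_, rfl⟩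
  -- reachability
  have hreach : ∀ (Nb : NCfg k Q → ℕ → Finset (NCfg k Q)) (w' D' : ℕ)
      (b : Fin (3 * k + 1) → Fin N → Bool) (Λ' : ℕ) (c : NCfg k Q),
      AccB W M A Nb w' D' b Λ' c → ∃ e, Relation.ReflTransGen (M.Step (W b)) c e ∧ e.q ∈ M.F := by
    intro Nb w' D' b Λ' c h
    induction h with
    | last Λ c d r h1 h2 h3 => exact ⟨d, h3 b (fun _ _ => rfl), h2⟩
    | near Λ δ c d r h1 h2 h3 h4 _ ih =>
      obtain ⟨e, he1, he2⟩ := ih
      exact ⟨e, (h4 b (fun _ _ => rfl)).trans he1, he2⟩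
    | far Λ c d r h1 h2 _ ih =>
      obtain ⟨e, he1, he2⟩ := ih
      exact ⟨e, (h2 b (fun _ _ => rfl)).trans he1, he2⟩
  -- a good matrix exists
  have hgood : ∃ b : Fin (3 * k + 1) → Fin N → Bool, gsign Finset.univ b = σ ∧
      ∀ h : Fin k, ¬ AccB W M A (nb A D h) d D b Λ c₀ := by
    by_contra hcon0
    have hcon : ∀ b : Fin (3 * k + 1) → Fin N → Bool, gsign Finset.univ b = σ →
        ∃ h : Fin k, AccB W M A (nb A D h) d D b Λ c₀ := by
      intro b hb
      by_contra hh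
      push Not at hh
      exact hcon0 ⟨b, hb, hh⟩
    obtain ⟨X, hX⟩ : ∃ X : ℝ, X = (2 ^ N : ℝ) ^ (3 * k + 1) := ⟨_, rfl⟩
    have hX0 : 0 < X := by rw [hX]; positivity
    have hmu0 := mu_nonneg (3 * k)
    have h6 : (mu (3 * k)) ^ N ≤ μ' ^ N :=
      pow_le_pow_left₀ hmu0 (by rw [hμ']; exact le_max_left _ _) N
    have h5 : ∀ h : Fin k, ((Finset.univ.filter (fun b : Fin (3 * k + 1) → Fin N → Bool =>
        AccB W M A (nb A D h) d D b Λ c₀)).card : ℝ) ≤
        2 * (((3 * k : ℕ) + 1 : ℝ) * A.card) * θ ^ Λ * (X * (mu (3 * k)) ^ N) := by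
      intro h
      have hnb := (hNB k Q n D (3 * k + 3) h (by omega) (by rw [hD]; exact hDJ)).1
      rw [hX]
      refine hCARD k Q (3 * k) N W M A (nb A D h) d D
        (fun δ => q * ((3 * k + 3) * (2 * δ + 1) ^ k)) θ (by omega) (by omega) hθ1 ?_ ?_ σ hσabs
        Λ c₀ ?_
      · intro c δ _ _
        have h1 := hnb c δ
        rw [← hA] at h1
        rw [hq]
        exact_mod_cast h1
      · have h1 : (∑ δ ∈ Finset.Icc d D, (((3 * k : ℕ) : ℝ) + 1) *
            (q * ((3 * k + 3) * (2 * (δ : ℝ) + 1) ^ k)) / θ ^ δ) =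
            ∑ δ ∈ Finset.Icc d D, (3 * k + 1 : ℝ) * (q * ((3 * k + 3) * (2 * (δ : ℝ) + 1) ^ k)) /
              (Real.exp ((k + 3) * Real.log d / d)) ^ δ := by
          rw [hθ]
          push_cast
          rfl
        have h2 : (((3 * k : ℕ) : ℝ) + 1) * (A.card : ℝ) / θ ^ D ≤
            (3 * k + 1 : ℝ) * (q * ((n : ℝ) + 2) ^ k) /
              (Real.exp ((k + 3) * Real.log d / d)) ^ D := by
          rw [← hθ]
          push_cast
          gcongr
        rw [h1]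
        linarith
      · intro b hb
        rw [← hmem, hM _ (hlenW' b)]
        obtain ⟨e, he1, he2⟩ := hreach _ _ _ b _ _ hb
        rw [hc₀] at he1
        exact accepts_of_reach M _ he1 he2
    have h4 : X * (1 - (mu (3 * k)) ^ N) / 2 ≤
        k * (2 * (((3 * k : ℕ) + 1 : ℝ) * A.card) * θ ^ Λ * (X * (mu (3 * k)) ^ N)) := by
      rw [hX]
      refine (sign_card (3 * k) N σ hσ1).trans ?_
      rw [← hX]
      have hsub : (Finset.univ.filter (fun b : Fin (3 * k + 1) → Fin N → Bool =>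
          gsign Finset.univ b = σ)) ⊆ (Finset.univ : Finset (Fin k)).biUnion (fun h =>
            Finset.univ.filter (fun b : Fin (3 * k + 1) → Fin N → Bool =>
              AccB W M A (nb A D h) d D b Λ c₀)) := by
        intro b hb
        rw [Finset.mem_filter] at hb
        obtain ⟨h, hh⟩ := hcon b hb.2
        rw [Finset.mem_biUnion]
        exact ⟨h, Finset.mem_univ _, by rw [Finset.mem_filter]; exact ⟨Finset.mem_univ _, hh⟩⟩
      have h7 := (Finset.card_le_card hsub).trans Finset.card_biUnion_le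
      have h8 : ((Finset.univ.filter (fun b : Fin (3 * k + 1) → Fin N → Bool =>
          gsign Finset.univ b = σ)).card : ℝ) ≤ ∑ h : Fin k,
            ((Finset.univ.filter (fun b : Fin (3 * k + 1) → Fin N → Bool =>
              AccB W M A (nb A D h) d D b Λ c₀)).card : ℝ) := by
        rw [← Nat.cast_sum]
        exact Nat.cast_le.mpr (by convert h7)
      refine h8.trans ((Finset.sum_le_sum (fun h _ => h5 h)).trans (le_of_eq ?_))
      rw [Finset.sum_const, Finset.card_univ, Fintype.card_fin, nsmul_eq_mul]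
    have hμN : μ' ^ N = Real.exp (-(N * lam)) := by
      have e2 : μ' = Real.exp (-lam) := by rw [hlam, neg_neg, Real.exp_log hμ'0]
      rw [e2, ← Real.exp_nat_mul]
      congr 1
      ring
    have hrrN : Real.exp (N * lam / 4) * μ' ^ N = rr ^ N := by
      rw [hμN, hrr, ← Real.exp_nat_mul, ← Real.exp_add]
      congr 1
      ring
    have h9 : k * (2 * (((3 * k : ℕ) + 1 : ℝ) * A.card) * θ ^ Λ * (X * (mu (3 * k)) ^ N)) ≤
        X * (B * ((N : ℝ) ^ k * rr ^ N)) := by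
      calc k * (2 * (((3 * k : ℕ) + 1 : ℝ) * A.card) * θ ^ Λ * (X * (mu (3 * k)) ^ N))
          ≤ k * (2 * (((3 * k : ℕ) + 1 : ℝ) * (q * (C4 + 2) ^ k * (N : ℝ) ^ k)) *
              Real.exp (N * lam / 4) * (X * μ' ^ N)) := by gcongr
        _ = X * (k * (2 * (((3 * k : ℕ) + 1 : ℝ) * (q * (C4 + 2) ^ k))) * ((N : ℝ) ^ k *
              (Real.exp (N * lam / 4) * μ' ^ N))) := by ring
        _ = X * (B * ((N : ℝ) ^ k * rr ^ N)) := by rw [hrrN, hB]
    have h10 : X * (B * ((N : ℝ) ^ k * rr ^ N)) < X * (1 - (mu (3 * k)) ^ N) / 2 :=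
      num_aux hX0 (lt_of_le_of_lt h6 hN2) hN1
    linarith
  obtain ⟨b, hb, hacc⟩ := hgood
  refine ⟨W b, hlenW' b, (hmem b).mpr hb, ?_⟩
  intro T ρ hρ h
  obtain ⟨hρ0, hst, hF⟩ := hρ
  have hpos : ∀ t, t ≤ T → ∀ i, (ρ t).p i ≤ (W b).length + 1 := by
    intro t ht i
    have := (pos_close (M := M) (w := W b) (ρ := ρ) (t := 0) t
      (fun s _ hs' => hst s (by omega)) (by rw [hρ0]; intro i; simp) i).2.2
    rwa [Nat.zero_add] at this
  have hst' : ∀ s, s < T → M.Step (C.W (hat m P P' b)) (ρ s) (ρ (s + 1)) := by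
    intro s hs
    have := hst s hs
    rwa [hW] at this
  have hpos' : ∀ s, s ≤ T → ∀ i, (ρ s).p i ≤ (C.W (hat m P P' b)).length + 1 := by
    intro s hs i
    have := hpos s hs i
    rwa [hW] at this
  obtain ⟨hnb1, hnb2⟩ := (hNB k Q n D (3 * k + 3) h (by omega) (by rw [hD]; exact hDJ)).2
    (Fin 4) M (W b) ρ T (hlenW' b) hst (by rw [hρ0]; intro i; simp)
  have hchain := hCHAIN k Q (3 * k + 1) N W M A (nb A D h) b (N' * V) d T ρ h (by omega)
    (by nlinarith) (by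
      intro t t' ht ht' hm
      rw [hW]
      refine hROW k Q C m hm1 hidem d P P' hP M N b h ρ T (by omega) ?_ hst' hpos' t t' ht ht' hm
      rw [← hN', ← hV]
      nlinarith) (by
      intro t t' ht ht' hm hs
      rw [hV, hN'] at hm hs
      rw [hW]
      exact hGAP k Q C m P P' M N b h ρ T hm1 (by omega) hst' hpos' t t' ht ht' hm hs) (by
      intro t t' δ ht ht' hm hs
      rw [hA]
      exact hnb2 t t' δ ht ht' (by rw [hD]; exact hm) hs) (by
      intro t ht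
      rw [hA]
      exact hnb1 t ht) hF
  rw [← hD] at hchain
  obtain ⟨S, hS⟩ : ∃ S, S = smv ρ h 0 T := ⟨_, rfl⟩
  rw [← hS] at hchain ⊢
  have hSΛ : Λ < 3 * S + d := by
    by_contra hlt
    rw [not_lt] at hlt
    apply hacc h
    obtain ⟨e, he⟩ := Nat.exists_eq_add_of_le hlt
    rw [he, hc₀, ← hρ0]
    exact hchain.mono_fin e
  have hSΛ' : (Λ : ℝ) + 1 ≤ 3 * S + d := by exact_mod_cast hSΛ
  -- `3 S ≥ lam N d / (8 β log d)`
  have hNlogd : 8 * β / lam * Real.log d ≤ N := by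
    refine le_trans ?_ hN5
    apply mul_le_mul_of_nonneg_left _ (by positivity)
    apply Real.log_le_log (by linarith)
    exact_mod_cast hddN
  have hE : (d : ℝ) ≤ lam * N * d / (8 * β * Real.log d) := by
    rw [le_div_iff₀ (by positivity)]
    have h1 : 8 * β * Real.log d ≤ lam * N := by
      have h2 : 8 * β / lam * Real.log d * lam ≤ N * lam :=
        mul_le_mul_of_nonneg_right hNlogd hlam0.le
      have h3 : 8 * β / lam * Real.log d * lam = 8 * β * Real.log d := by field_simp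
      linarith
    nlinarith
  have hE2 : lam * N * d / (8 * β * Real.log d) ≤ 3 * S := by
    have h1 : lam * N * d / (4 * β * Real.log d) = 2 * (lam * N * d / (8 * β * Real.log d)) := by
      field_simp
      ring
    rw [h1] at hΛ2
    linarith
  -- the logarithms
  have hlogn : Real.log n ≤ C6 * d := by
    have hn0 : (0 : ℝ) < n := by
      have : 1 ≤ n := by omega
      exact_mod_cast this
    have h1 : Real.log n ≤ Real.log (C4 * N) := Real.log_le_log hn0 hnC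
    rw [Real.log_mul hC40.ne' (by positivity)] at h1
    have h2 : Real.log N ≤ (d + 2 : ℕ) * Real.log 16 := by
      rw [← Real.log_pow]
      apply Real.log_le_log (by positivity)
      exact_mod_cast hdN2.le
    push_cast at h2
    rw [hC6]
    nlinarith
  have hlogn2 : (d : ℝ) ≤ Real.log n := by
    have h1 : ((d + 1 : ℕ) : ℝ) * Real.log 16 ≤ Real.log n := by
      rw [← Real.log_pow]
      apply Real.log_le_log (by positivity)
      exact_mod_cast hdN.trans hnN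
    have h2 : 1 ≤ Real.log 16 := by
      rw [Real.le_log_iff_exp_le (by norm_num)]
      have := Real.exp_one_lt_d9
      linarith
    push_cast at h1
    nlinarith
  have hloglog : Real.log d ≤ Real.log (Real.log n) := Real.log_le_log (by linarith) hlogn2
  have hn0' : (0 : ℝ) ≤ n := by positivity
  have hfin : (n : ℝ) * Real.log n / Real.log (Real.log n) ≤ (C4 * N) * (C6 * d) / Real.log d := by
    have hl0 : 0 ≤ Real.log n := by linarith
    gcongr
  calc lam / (24 * β * C4 * C6) * ((n : ℝ) * Real.log n / Real.log (Real.log n))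
      ≤ lam / (24 * β * C4 * C6) * ((C4 * N) * (C6 * d) / Real.log d) := by gcongr
    _ = lam * N * d / (8 * β * Real.log d) / 3 := by
        field_simp
        ring
    _ ≤ S := by linarith

end Pool.Agent.TH431.RK
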