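import Pool.Agent.TH431.RB.Stmts

/-!
# `k`-head automata, all but one of whose heads move slowly: definitions and statements
-/

set_option autoImplicit false

namespace Pool.Agent.TH431.RK

open Pool.Agent.H867R4
open Pool.Agent.TH431.RB (Graded Rel blk ex hat Ph S_GB S_HAT1)
open Pool.Agent.H541R2 (gsign theLang mu)

open Classical in
/-- the number of steps between the times `t` and `t'` at which some head other than `h` moves -/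
noncomputable def smv {k : ℕ} {Q : Type} (ρ : ℕ → NCfg k Q) (h : Fin k) (t t' : ℕ) : ℕ :=
  ((Finset.Ico t t').filter (fun s => ∃ i, i ≠ h ∧ (ρ (s + 1)).p i ≠ (ρ s).p i)).card

open Classical in
/-- the configurations in `A` with head `h` at a multiple of `D` and the other heads at distance at
most `δ` from those of `c` -/
noncomputable def nb {k : ℕ} {Q : Type} (A : Finset (NCfg k Q)) (D : ℕ) (h : Fin k)
    (c : NCfg k Q) (δ : ℕ) : Finset (NCfg k Q) :=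
  A.filter (fun d => D ∣ d.p h ∧ ∀ i, i ≠ h → d.p i ≤ c.p i + δ ∧ c.p i ≤ d.p i + δ)

/-- acceptance along a chain of phases with budget `Λ`: a phase to a configuration in `Nb c δ` costs
`δ` (`w ≤ δ ≤ D`), a phase to any configuration in `A` costs `D`, the last phase is free -/
inductive AccB {k : ℕ} {Q : Type} {g N : ℕ} (W : (Fin g → Fin N → Bool) → List (Fin 4))
    (M : NMach (Fin 4) k Q) (A : Finset (NCfg k Q)) (Nb : NCfg k Q → ℕ → Finset (NCfg k Q))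
    (w D : ℕ) (b : Fin g → Fin N → Bool) : ℕ → NCfg k Q → Prop
  | last (Λ : ℕ) (c d : NCfg k Q) (r : Fin g) : d ∈ A → d.q ∈ M.F → Ph W M b r c d →
      AccB W M A Nb w D b Λ c
  | near (Λ δ : ℕ) (c d : NCfg k Q) (r : Fin g) : w ≤ δ → δ ≤ D → d ∈ Nb c δ → Ph W M b r c d →
      AccB W M A Nb w D b Λ d → AccB W M A Nb w D b (Λ + δ) c
  | far (Λ : ℕ) (c d : NCfg k Q) (r : Fin g) : d ∈ A → Ph W M b r c d →
      AccB W M A Nb w D b Λ d → AccB W M A Nb w D b (Λ + D) c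

/-- RK-SLOW: a piece in which the heads other than `h` make few moves, outside the zone `Z` -/
def S_SLOW : Prop := ∀ (α Q : Type) (k : ℕ) (M : NMach α k Q) (U Z Z' U' : List α), U ≠ [] →
  Z.length = Z'.length → 1 ≤ Z.length → ∀ d : ℕ,
  (∀ T : Table (Q × ℕ) α, Graded T → ∀ (e s : Bool) (x y : Q × ℕ), y.2 ≤ x.2 + d →
    Beh Z T e x s y → Beh Z' T e x s y) →
  ∀ (h : Fin k) (ρ : ℕ → NCfg k Q) (t m : ℕ),
  (∀ s, t ≤ s → s < t + m → M.Step (U ++ Z ++ U') (ρ s) (ρ (s + 1))) →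
  (∀ s, t ≤ s → s ≤ t + m → ∀ i, i ≠ h → Out U Z ((ρ s).p i)) →
  Out U Z ((ρ t).p h) → Out U Z ((ρ (t + m)).p h) →
  smv ρ h t (t + m) ≤ d →
  Relation.ReflTransGen (M.Step (U ++ Z' ++ U')) (ρ t) (ρ (t + m))

/-- RK-ROW -/
def S_ROW : Prop := ∀ (k : ℕ) (Q : Type) (C : Code Q) (m : ℕ), 1 ≤ m →
  (Beh (C.zone (blk m true) ++ C.zone (blk m true)) : Table Q (Fin 4) → _) =
    Beh (C.zone (blk m true)) →
  ∀ (d : ℕ) (P P' : List Bool), (∀ β β' : List Bool, Rel d (P ++ β ++ P') (P ++ β' ++ P')) →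
  ∀ (M : NMach (Fin 4) k Q) (N : ℕ) (b : Fin (3 * k + 1) → Fin N → Bool) (h : Fin k)
    (ρ : ℕ → NCfg k Q) (T : ℕ), 1 ≤ N →
  d ≤ (P.length + N + P'.length) * m * (C.x₁.length + 1) →
  (∀ s, s < T → M.Step (C.W (hat m P P' b)) (ρ s) (ρ (s + 1))) →
  (∀ s, s ≤ T → ∀ i, (ρ s).p i ≤ (C.W (hat m P P' b)).length + 1) →
  ∀ t t', t ≤ t' → t' ≤ T → smv ρ h t t' ≤ d →
    ∃ r, Ph (fun b => C.W (hat m P P' b)) M b r (ρ t) (ρ t')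

/-- RK-GAP -/
def S_GAP : Prop := ∀ (k : ℕ) (Q : Type) (C : Code Q) (m : ℕ) (P P' : List Bool)
  (M : NMach (Fin 4) k Q) (N : ℕ) (b : Fin (3 * k + 1) → Fin N → Bool) (h : Fin k)
    (ρ : ℕ → NCfg k Q) (T : ℕ), 1 ≤ m → 1 ≤ N →
  (∀ s, s < T → M.Step (C.W (hat m P P' b)) (ρ s) (ρ (s + 1))) →
  (∀ s, s ≤ T → ∀ i, (ρ s).p i ≤ (C.W (hat m P P' b)).length + 1) →
  ∀ t t', t ≤ t' → t' ≤ T →
  (∀ s, t < s → s < t' →
    ¬ ((P.length + N + P'.length) * m * (C.x₁.length + 1) + 1) ∣ (ρ s).p h) →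
  smv ρ h t t' ≤ (P.length + N + P'.length) * m * (C.x₁.length + 1) →
    ∃ r, Ph (fun b => C.W (hat m P P' b)) M b r (ρ t) (ρ t')

/-- RK-CHAIN -/
def S_CHAIN : Prop := ∀ (k : ℕ) (Q : Type) (g N : ℕ)
  (W : (Fin g → Fin N → Bool) → List (Fin 4)) (M : NMach (Fin 4) k Q)
  (A : Finset (NCfg k Q)) (Nb : NCfg k Q → ℕ → Finset (NCfg k Q)) (b : Fin g → Fin N → Bool)
  (ℓ w T : ℕ) (ρ : ℕ → NCfg k Q) (h : Fin k), 1 ≤ w → w ≤ ℓ →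
  (∀ t t', t ≤ t' → t' ≤ T → smv ρ h t t' ≤ w → ∃ r, Ph W M b r (ρ t) (ρ t')) →
  (∀ t t', t ≤ t' → t' ≤ T → (∀ s, t < s → s < t' → ¬ (ℓ + 1) ∣ (ρ s).p h) →
    smv ρ h t t' ≤ ℓ → ∃ r, Ph W M b r (ρ t) (ρ t')) →
  (∀ t t' δ, t ≤ t' → t' ≤ T → (ℓ + 1) ∣ (ρ t').p h → smv ρ h t t' ≤ δ → ρ t' ∈ Nb (ρ t) δ) →
  (∀ t, t ≤ T → ρ t ∈ A) → (ρ T).q ∈ M.F →
  AccB W M A Nb w (ℓ + 1) b (3 * smv ρ h 0 T + w) (ρ 0)

open Classical in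
/-- RK-CARD -/
def S_CARD : Prop := ∀ (k : ℕ) (Q : Type) (g N : ℕ)
  (W : (Fin (g + 1) → Fin N → Bool) → List (Fin 4)) (M : NMach (Fin 4) k Q)
  (A : Finset (NCfg k Q)) (Nb : NCfg k Q → ℕ → Finset (NCfg k Q)) (w D : ℕ) (κ : ℕ → ℝ) (θ : ℝ),
  1 ≤ w → 1 ≤ D → 1 ≤ θ → (∀ c δ, w ≤ δ → δ ≤ D → ((Nb c δ).card : ℝ) ≤ κ δ) →
  (∑ δ ∈ Finset.Icc w D, (g + 1 : ℝ) * κ δ / θ ^ δ) + (g + 1 : ℝ) * A.card / θ ^ D ≤ 1 / 2 →
  ∀ (σ : ℝ), |σ| = 1 → ∀ (Λ : ℕ) (c : NCfg k Q),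
  (∀ b, AccB W M A Nb w D b Λ c → gsign Finset.univ b = σ) →
  ((Finset.univ.filter (fun b : Fin (g + 1) → Fin N → Bool =>
    AccB W M A Nb w D b Λ c)).card : ℝ) ≤
    2 * ((g + 1 : ℝ) * A.card) * θ ^ Λ * ((2 ^ N : ℝ) ^ (g + 1) * (mu g) ^ N)

/-- RK-NB: the size of the neighbourhoods, and where computations go -/
def S_NB : Prop := ∀ (k : ℕ) (Q : Type) [Fintype Q] (n D J : ℕ) (h : Fin k), 1 ≤ D →
  n + 1 < J * D →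
  (∀ c δ, (nb (cfgs (Q := Q) k n) D h c δ).card ≤ Fintype.card Q * (J * (2 * δ + 1) ^ k)) ∧
  ∀ (α : Type) (M : NMach α k Q) (v : List α) (ρ : ℕ → NCfg k Q) (T : ℕ), v.length = n →
    (∀ s, s < T → M.Step v (ρ s) (ρ (s + 1))) → (∀ i, (ρ 0).p i ≤ n + 1) →
    (∀ t, t ≤ T → ρ t ∈ cfgs (Q := Q) k n) ∧
    ∀ t t' δ, t ≤ t' → t' ≤ T → D ∣ (ρ t').p h → smv ρ h t t' ≤ δ →
      ρ t' ∈ nb (cfgs (Q := Q) k n) D h (ρ t) δ

/-- RK-NUM: the numerical condition; `θ = exp (β log d / d)` with `β = k + 3` -/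
def S_NUM : Prop := ∀ (k : ℕ) (q J a : ℝ), 1 ≤ q → 1 ≤ J → 1 ≤ a → ∃ d₀ : ℕ, 3 ≤ d₀ ∧
  ∀ d D : ℕ, d₀ ≤ d → d ≤ D → ∀ n : ℝ, 0 ≤ n → n + 2 ≤ a * D →
    (∑ δ ∈ Finset.Icc d D, (3 * k + 1 : ℝ) * (q * (J * (2 * δ + 1) ^ k)) /
      (Real.exp ((k + 3) * Real.log d / d)) ^ δ) +
      (3 * k + 1 : ℝ) * (q * (n + 2) ^ k) / (Real.exp ((k + 3) * Real.log d / d)) ^ D ≤ 1 / 2

/-- RK-FINAL -/
def S_FINAL : Prop := ∀ (k : ℕ) (Q : Type) [Fintype Q], ∃ c : ℝ, 0 < c ∧ ∀ n₀ : ℕ, ∃ n : ℕ,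
  n₀ ≤ n ∧ ∀ (M : NMach (Fin 4) k Q),
    (∀ w : List (Fin 4), w.length = n → (w ∈ theLang ↔ M.Accepts w)) →
    ∃ w : List (Fin 4), w.length = n ∧ w ∈ theLang ∧ ∀ (T : ℕ) (ρ : ℕ → NCfg k Q),
      M.AccRun w T ρ → ∀ h : Fin k,
        c * ((n : ℝ) * Real.log n / Real.log (Real.log n)) ≤ smv ρ h 0 T

end Pool.Agent.TH431.RK
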